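import Pool.Agent.Lib.TWLY.C
import Pool.Agent.Lib.TWIV.Ingl
import Pool.Agent.Lib.TWS.Tr

/-!
# CT, j = 1: functionals

`A ≤ E` are subfields of `Ω`, `Ω` is immediate over `E`.

* `AOp v A d`: `d : Ω → Ω` is additive, `A`-linear, of norm `≤ 0`; `Fnl v A E d`: moreover `d E = 0`;
  then `d` is strict: `|d y| < |y|` (`Fnl.strict`);
* `cw d f`: `d` applied to the coefficients of `f`; `RsP v f g`: the residues of the coefficients of
  `f` are those of `g`;
-/

set_option autoImplicit false

open MvPolynomial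

namespace Pool.Agent.TWFN

open Pool.Agent.H15JM (RVal)
open Pool.Agent.LU1 (VPos)
open Pool.Agent.D2 (Ctx0)
open Pool.Agent.TWM
open Pool.Agent.TWS (IsoE SphC)
open Pool.Agent.TWLY

universe u

variable {k Ω : Type u} [Field k] [Field Ω] [Algebra k Ω] {v : RVal Ω}

/-! ### Coefficientwise maps -/

section cw

variable {d : Ω → Ω}

/-- `d` applied to the coefficients. -/
noncomputable def cw (d : Ω → Ω) (f : MvPolynomial (Fin 2) Ω) : MvPolynomial (Fin 2) Ω :=
  ∑ m ∈ f.support, monomial m (d (coeff m f))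

theorem coeff_cw (h0 : d 0 = 0) (f : MvPolynomial (Fin 2) Ω) (m : Ex) :
    coeff m (cw d f) = d (coeff m f) := by
  classical
  unfold cw
  rw [coeff_sum]
  simp_rw [coeff_monomial]
  rw [Finset.sum_ite_eq']
  split_ifs with h
  · rfl
  · rw [notMem_support_iff.1 h, h0]

/-- The residues of the coefficients of `f` are the coefficients of `g`. -/
def RsP (v : RVal Ω) (f : MvPolynomial (Fin 2) Ω) (g : MvPolynomial (Fin 2) k) : Prop :=
  ∀ m, VPos v (coeff m f - algebraMap k Ω (coeff m g))

theorem VPos.add' {x y : Ω} (hx : VPos v x) (hy : VPos v y) : VPos v (x + y) :=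
  Gt.add (r := 0) hx hy

theorem VPos.sub' {x y : Ω} (hx : VPos v x) (hy : VPos v y) : VPos v (x - y) :=
  Gt.sub (r := 0) hx hy

theorem RsP.add {f f' : MvPolynomial (Fin 2) Ω} {g g' : MvPolynomial (Fin 2) k}
    (h : RsP v f g) (h' : RsP v f' g') : RsP v (f + f') (g + g') := fun m => by
  rw [coeff_add, coeff_add, map_add, add_sub_add_comm]
  exact VPos.add' (h m) (h' m)

theorem RsP.sub {f f' : MvPolynomial (Fin 2) Ω} {g g' : MvPolynomial (Fin 2) k}
    (h : RsP v f g) (h' : RsP v f' g') : RsP v (f - f') (g - g') := fun m => by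
  rw [coeff_sub, coeff_sub, map_sub, sub_sub_sub_comm]
  exact VPos.sub' (h m) (h' m)

theorem RsP.zero : RsP v (0 : MvPolynomial (Fin 2) Ω) (0 : MvPolynomial (Fin 2) k) := fun m => by
  rw [coeff_zero, coeff_zero, map_zero, sub_zero]
  exact Gt.zero

theorem RsP.C {x : Ω} {c : k} (h : VPos v (x - algebraMap k Ω c)) :
    RsP v (MvPolynomial.C x) (MvPolynomial.C c) := fun m => by
  classical
  rw [coeff_C, coeff_C]
  split_ifs
  · exact h
  · rw [map_zero, sub_zero]; exact Gt.zero

theorem RsP.const {f : MvPolynomial (Fin 2) Ω} {g : MvPolynomial (Fin 2) k} (h : RsP v f g) :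
    RsP v (MvPolynomial.C (constantCoeff f)) (MvPolynomial.C (constantCoeff g)) :=
  RsP.C (h 0)

theorem RsP.unique (hk : Ctx0 k v) {f : MvPolynomial (Fin 2) Ω} {g g' : MvPolynomial (Fin 2) k}
    (h : RsP v f g) (h' : RsP v f g') : g = g' := by
  refine MvPolynomial.ext _ _ fun m => ?_
  have h1 : VPos v (algebraMap k Ω (coeff m g - coeff m g')) := by
    have e : algebraMap k Ω (coeff m g - coeff m g') =
        (coeff m f - algebraMap k Ω (coeff m g')) - (coeff m f - algebraMap k Ω (coeff m g)) := by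
      rw [map_sub]; ring
    rw [e]
    exact VPos.sub' (h' m) (h m)
  exact sub_eq_zero.1 (hk.const_eq_zero h1)

theorem RsP.congr {f f' : MvPolynomial (Fin 2) Ω} {g : MvPolynomial (Fin 2) k}
    (h : RsP v f g) (h' : ∀ m, VPos v (coeff m f' - coeff m f)) : RsP v f' g := fun m => by
  have e : coeff m f' - algebraMap k Ω (coeff m g) =
      (coeff m f' - coeff m f) + (coeff m f - algebraMap k Ω (coeff m g)) := by ring
  rw [e]
  exact VPos.add' (h' m) (h m)

/-- Residue polynomials exist. -/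
theorem exists_rsP (hk : Ctx0 k v) {f : MvPolynomial (Fin 2) Ω} (hf : ∀ m, v.Ge 0 (coeff m f)) :
    ∃ g : MvPolynomial (Fin 2) k, RsP v f g ∧ ∀ m, coeff m f = 0 → coeff m g = 0 := by
  classical
  choose c hc using fun m => hk.residue (hf m)
  refine ⟨∑ m ∈ f.support, monomial m (c m), fun m => ?_, fun m hm => ?_⟩
  · rw [coeff_sum]
    simp_rw [coeff_monomial]
    rw [Finset.sum_ite_eq']
    split_ifs with h
    · exact hc m
    · rw [notMem_support_iff.1 h, map_zero, sub_zero]; exact Gt.zero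
  · rw [coeff_sum]
    simp_rw [coeff_monomial]
    rw [Finset.sum_ite_eq', if_neg]
    rwa [mem_support_iff, not_not]

theorem RsP.supp (hk : Ctx0 k v) {f : MvPolynomial (Fin 2) Ω} {g : MvPolynomial (Fin 2) k}
    (h : RsP v f g) {m : Ex} (hm : coeff m f = 0) : coeff m g = 0 := by
  have h1 := h m
  rw [hm, zero_sub] at h1
  have h2 : VPos v (algebraMap k Ω (coeff m g)) := by
    have := Gt.neg (r := 0) h1
    rwa [neg_neg] at this
  exact hk.const_eq_zero h2

end cw

/-! ### Substitutions over `k` -/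

section sb

/-- The substitution `X i ↦ m i` in the polynomials over `Ω`, `m` over `k`. -/
noncomputable def sbO (Ω : Type u) [Field Ω] [Algebra k Ω] (m : Fin 2 → MvPolynomial (Fin 2) k) :
    MvPolynomial (Fin 2) Ω →ₐ[Ω] MvPolynomial (Fin 2) Ω :=
  aeval (fun i => MvPolynomial.map (algebraMap k Ω) (m i))

/-- The substitution `X i ↦ m i` in the polynomials over `k`. -/
noncomputable def sbk (m : Fin 2 → MvPolynomial (Fin 2) k) :
    MvPolynomial (Fin 2) k →ₐ[k] MvPolynomial (Fin 2) k := aeval m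

variable {m : Fin 2 → MvPolynomial (Fin 2) k}

theorem sbO_map (g : MvPolynomial (Fin 2) k) :
    sbO Ω m (MvPolynomial.map (algebraMap k Ω) g) = MvPolynomial.map (algebraMap k Ω) (sbk m g) := by
  induction g using MvPolynomial.induction_on with
  | C a => simp [sbO, sbk]
  | add f g hf hg => rw [map_add, map_add, hf, hg, map_add, map_add]
  | mul_X f i hf =>
    rw [map_mul, map_mul, hf, map_mul, map_mul]
    simp [sbO, sbk]

theorem sbO_eq (f : MvPolynomial (Fin 2) Ω) :
    sbO Ω m f = ∑ g ∈ f.support, C (coeff g f) *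
      MvPolynomial.map (algebraMap k Ω) (sbk m (monomial g 1)) := by
  conv_lhs => rw [f.as_sum]
  rw [map_sum]
  refine Finset.sum_congr rfl fun g _ => ?_
  rw [← sbO_map, MvPolynomial.map_monomial, map_one]
  have e : monomial g (coeff g f) = C (coeff g f) * monomial g (1 : Ω) := by
    rw [C_mul_monomial, mul_one]
  rw [e, map_mul]
  congr 1
  exact (sbO Ω m).commutes _

theorem coeff_sbO (f : MvPolynomial (Fin 2) Ω) (n : Ex) :
    coeff n (sbO Ω m f) = ∑ g ∈ f.support, algebraMap k Ω (coeff n (sbk m (monomial g 1))) *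
      coeff g f := by
  rw [sbO_eq, coeff_sum]
  refine Finset.sum_congr rfl fun g _ => ?_
  rw [coeff_C_mul, coeff_map, mul_comm]

theorem coeff_sbk (f : MvPolynomial (Fin 2) k) (n : Ex) :
    coeff n (sbk m f) = ∑ g ∈ f.support, coeff n (sbk m (monomial g 1)) * coeff g f := by
  conv_lhs => rw [f.as_sum]
  rw [map_sum, coeff_sum]
  refine Finset.sum_congr rfl fun g _ => ?_
  have e : monomial g (coeff g f) = coeff g f • monomial g (1 : k) := by
    rw [smul_monomial, smul_eq_mul, mul_one]
  rw [e, map_smul, coeff_smul, smul_eq_mul, mul_comm]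

theorem coeff_sbO_of_subset {f : MvPolynomial (Fin 2) Ω} {S : Finset Ex} (hS : f.support ⊆ S)
    (n : Ex) : coeff n (sbO Ω m f) =
      ∑ g ∈ S, algebraMap k Ω (coeff n (sbk m (monomial g 1))) * coeff g f := by
  rw [coeff_sbO]
  refine Finset.sum_subset hS fun g _ hg => ?_
  rw [notMem_support_iff.1 hg, mul_zero]

theorem coeff_sbk_of_subset {f : MvPolynomial (Fin 2) k} {S : Finset Ex} (hS : f.support ⊆ S)
    (n : Ex) : coeff n (sbk m f) = ∑ g ∈ S, coeff n (sbk m (monomial g 1)) * coeff g f := by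
  rw [coeff_sbk]
  refine Finset.sum_subset hS fun g _ hg => ?_
  rw [notMem_support_iff.1 hg, mul_zero]

theorem RsP.sb (hk : Ctx0 k v) {f : MvPolynomial (Fin 2) Ω} {g : MvPolynomial (Fin 2) k}
    (h : RsP v f g) : RsP v (sbO Ω m f) (sbk m g) := fun n => by
  classical
  rw [coeff_sbO_of_subset (S := f.support ∪ g.support) Finset.subset_union_left,
    coeff_sbk_of_subset (S := f.support ∪ g.support) Finset.subset_union_right, map_sum,
    ← Finset.sum_sub_distrib]
  refine Gt.sum (r := 0) _ _ fun j _ => ?_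
  rw [map_mul, ← mul_sub, mul_comm]
  have := Gt.mul_ge (r := 0) (r' := 0) (h j) (hk.ge (coeff n (sbk m (monomial j 1))))
  rwa [add_zero] at this

end sb

/-! ### Operators -/

/-- Additive, `A`-linear, of norm `≤ 0`. -/
structure AOp (v : RVal Ω) (A : IntermediateField k Ω) (d : Ω → Ω) : Prop where
  add : ∀ x y, d (x + y) = d x + d y
  lin : ∀ a ∈ A, ∀ y, d (a * y) = a * d y
  norm : ∀ (r : ℝ) (y : Ω), v.Ge r y → v.Ge r (d y)

/-- `|d y| < |y|`. -/
def Strct (v : RVal Ω) (d : Ω → Ω) : Prop := ∀ y, y ≠ 0 → Gt v (v y) (d y)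

namespace AOp

variable {A : IntermediateField k Ω} {d : Ω → Ω}

theorem zero (h : AOp v A d) : d 0 = 0 := by
  have := h.add 0 0
  rw [add_zero] at this
  exact left_eq_add.1 this

theorem neg (h : AOp v A d) (x : Ω) : d (-x) = -d x := by
  have := h.add x (-x)
  rw [add_neg_cancel, h.zero] at this
  exact (neg_eq_of_add_eq_zero_right this.symm).symm

theorem sub (h : AOp v A d) (x y : Ω) : d (x - y) = d x - d y := by
  rw [sub_eq_add_neg, h.add, h.neg, ← sub_eq_add_neg]

theorem sum (h : AOp v A d) {ι : Type*} (S : Finset ι) (f : ι → Ω) :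
    d (∑ i ∈ S, f i) = ∑ i ∈ S, d (f i) := by
  classical
  induction S using Finset.induction_on with
  | empty => rw [Finset.sum_empty, Finset.sum_empty, h.zero]
  | insert i S hi ih => rw [Finset.sum_insert hi, Finset.sum_insert hi, h.add, ih]

theorem coeff_cw (h : AOp v A d) (f : MvPolynomial (Fin 2) Ω) (m : Ex) :
    coeff m (cw d f) = d (coeff m f) := TWFN.coeff_cw h.zero f m

theorem cw_add (h : AOp v A d) (f g : MvPolynomial (Fin 2) Ω) :
    cw d (f + g) = cw d f + cw d g := by
  refine MvPolynomial.ext _ _ fun m => ?_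
  rw [coeff_add, h.coeff_cw, h.coeff_cw, h.coeff_cw, coeff_add, h.add]

theorem cw_sub (h : AOp v A d) (f g : MvPolynomial (Fin 2) Ω) :
    cw d (f - g) = cw d f - cw d g := by
  refine MvPolynomial.ext _ _ fun m => ?_
  rw [coeff_sub, h.coeff_cw, h.coeff_cw, h.coeff_cw, coeff_sub, h.sub]

theorem cw_C (h : AOp v A d) (x : Ω) : cw d (MvPolynomial.C x) = MvPolynomial.C (d x) := by
  classical
  refine MvPolynomial.ext _ _ fun m => ?_
  rw [h.coeff_cw, coeff_C, coeff_C]
  split_ifs
  · rfl
  · exact h.zero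

theorem cw_support (f : MvPolynomial (Fin 2) Ω) (h : AOp v A d) : (cw d f).support ⊆ f.support := by
  intro m hm
  rw [mem_support_iff, h.coeff_cw] at hm
  rw [mem_support_iff]
  rintro h0
  rw [h0, h.zero] at hm
  exact hm rfl

/-- `k`-linear operators commute with substitutions over `k`. -/
theorem cw_sbO (h : AOp v A d) {m : Fin 2 → MvPolynomial (Fin 2) k}
    (f : MvPolynomial (Fin 2) Ω) :
    cw d (sbO Ω m f) = sbO Ω m (cw d f) := by
  refine MvPolynomial.ext _ _ fun n => ?_
  rw [h.coeff_cw, coeff_sbO, coeff_sbO_of_subset (cw_support f h), h.sum]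
  refine Finset.sum_congr rfl fun g _ => ?_
  rw [h.lin _ (A.algebraMap_mem _), h.coeff_cw]

/-- The monomials at a point. -/
theorem _root_.Pool.Agent.TWFN.eval_eq_sum_mo (X : Fin 2 → Ω) (f : MvPolynomial (Fin 2) Ω) :
    eval X f = ∑ g ∈ f.support, coeff g f * g.prod fun i e => X i ^ e := by
  rw [eval_eq']
  refine Finset.sum_congr rfl fun g _ => ?_
  rw [Finsupp.prod_fintype _ _ fun i => pow_zero _]

/-- `d (f(X)) = (d f)(X)` if the monomials of `f` take values in `A`. -/
theorem eval_cw (h : AOp v A d) {X : Fin 2 → Ω} {f : MvPolynomial (Fin 2) Ω}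
    (hX : ∀ g ∈ f.support, (g.prod fun i e => X i ^ e) ∈ A) : d (eval X f) = eval X (cw d f) := by
  rw [eval_eq_sum_mo, h.sum, eval_eq_sum_mo]
  rw [Finset.sum_subset (cw_support f h)
    (f := fun g => coeff g (cw d f) * g.prod fun i e => X i ^ e)]
  · refine Finset.sum_congr rfl fun g hg => ?_
    rw [h.coeff_cw, mul_comm, h.lin _ (hX g hg), mul_comm]
  · intro g _ hg
    rw [notMem_support_iff.1 hg, zero_mul]

theorem strict_ge (hs : Strct v d) (h : AOp v A d) {r : ℝ} {y : Ω} (hy : v.Ge r y) :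
    Gt v r (d y) := by
  by_cases h0 : y = 0
  · rw [h0, h.zero]; exact Gt.zero
  · exact (hs y h0).mono (hy h0)

/-- Strictness over a field over which `Ω` is immediate. -/
theorem strict_of (h : AOp v A d) {E : IntermediateField k Ω}
    (imm : ∀ y : Ω, y ≠ 0 → ∃ a ∈ E, Gt v (v y) (y - a))
    (hE : ∀ y ∈ E, y ≠ 0 → Gt v (v y) (d y)) : Strct v d := by
  intro y hy
  obtain ⟨a, ha, h1⟩ := imm y hy
  obtain ⟨h2, h3⟩ := Gt.val_eq hy h1
  have h4 := hE a ha h2
  rw [h3] at h4
  have h5 : Gt v (v y) (d (y - a)) := by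
    by_cases h0 : y - a = 0
    · rw [h0, h.zero]; exact Gt.zero
    · exact Gt.of_ge (h.norm _ _ (RVal.ge_self (v := v) _)) (h1 h0)
  have e : d y = d (y - a) + d a := by rw [← h.add, sub_add_cancel]
  rw [e]
  exact h5.add h4

end AOp

/-- Operators which vanish on `E`. -/
structure Fnl (v : RVal Ω) (A E : IntermediateField k Ω) (d : Ω → Ω) : Prop
    extends AOp v A d where
  van : ∀ y ∈ E, d y = 0

namespace Fnl

variable {A E : IntermediateField k Ω} {d d' : Ω → Ω}

theorem strict (h : Fnl v A E d) (imm : ∀ y : Ω, y ≠ 0 → ∃ a ∈ E, Gt v (v y) (y - a)) :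
    Strct v d :=
  h.toAOp.strict_of imm fun y hy _ => by rw [h.van y hy]; exact Gt.zero

theorem addF (h : Fnl v A E d) (h' : Fnl v A E d') : Fnl v A E fun y => d y + d' y where
  add x y := by rw [h.add, h'.add]; ring
  lin a ha y := by rw [h.lin a ha, h'.lin a ha]; ring
  norm r y hy := (h.norm r y hy).add (h'.norm r y hy)
  van y hy := by rw [h.van y hy, h'.van y hy, add_zero]

theorem smulF (h : Fnl v A E d) (hk : Ctx0 k v) (c : k) :
    Fnl v A E fun y => algebraMap k Ω c * d y where
  add x y := by rw [h.add]; ring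
  lin a ha y := by rw [h.lin a ha]; ring
  norm r y hy := by
    have := (hk.ge c).mul (h.norm r y hy)
    rwa [zero_add] at this
  van y hy := by rw [h.van y hy, mul_zero]

theorem zeroF : Fnl v A E fun _ : Ω => (0 : Ω) where
  add x y := by rw [add_zero]
  lin a ha y := by rw [mul_zero]
  norm r y hy := RVal.Ge.zero
  van y hy := rfl

end Fnl

end Pool.Agent.TWFN
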