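import Pool.Agent.Lib.TWFN.A

/-!
# CT, j = 1: the space of the residue polynomials of the functionals

`Ω` is spherically complete and immediate over `E`, `A ≤ E`; `Z` is a polynomial whose coefficients
are limits of `E` (the jets of `z`).

* `exists_preim`: an isometric endomorphism which fixes a field over which `Ω` is immediate is onto;
* `exists_aop`: an `A`-linear map `E → Ω` of norm `≤ 0` extends to `Ω`;
* `WF v A E Z`: the residue polynomials of `d(Z)`, `d` a functional; `WF.nr`: if the coefficients at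
  `g` of all elements of `WF` are zero, then the coefficient of `Z` at `g` is in `E + O_0`;
* `FJ`: the data (translations and jets); `FJ.stab`: left stability;
* `exists_small`, `exists_bound`: the right bound.
-/

set_option autoImplicit false

open MvPolynomial

namespace Pool.Agent.TWFN

open Pool.Agent.H15JM (RVal)
open Pool.Agent.LU1 (VPos)
open Pool.Agent.D2 (Ctx0)
open Pool.Agent.TWM
open Pool.Agent.TWS (IsoE SphC)
open Pool.Agent.TWLY

universe u

variable {k Ω : Type u} [Field k] [Field Ω] [Algebra k Ω] {v : RVal Ω}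
  {A E W : IntermediateField k Ω}

/-! ### Automorphisms -/

/-- An isometric endomorphism which fixes a field over which `Ω` is immediate is onto. -/
theorem exists_preim (hO : SphC v) {Φ : Ω →ₐ[k] Ω} (hΦ : IsoE v v Φ)
    (imm : ∀ y : Ω, y ≠ 0 → ∃ a ∈ W, Gt v (v y) (y - a)) (hW : ∀ a ∈ W, Φ a = a) (y : Ω) :
    ∃ x, Φ x = y := by
  let _ : Algebra Ω Ω := Φ.toRingHom.toAlgebra
  have hal : ∀ x : Ω, @algebraMap Ω Ω _ _ (Φ.toRingHom.toAlgebra) x = Φ x := fun x => rfl
  obtain ⟨a, ha⟩ := SphC.exists_best (L := Ω) (Ω := Ω) (u := v) (w := v) hO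
    (fun g hg => by rw [hal]; exact hΦ.val g hg) y
  by_contra hno
  push Not at hno
  have h1 : y - Φ a ≠ 0 := fun h => hno a (sub_eq_zero.1 h).symm
  obtain ⟨b, hb, h2⟩ := imm _ h1
  obtain ⟨h3, h4⟩ := ha (a + b) (by rw [hal]; exact h1)
  rw [hal] at h3 h4
  rw [hal] at h4
  have e : y - Φ (a + b) = y - Φ a - b := by rw [map_add, hW b hb]; ring
  rw [e] at h3 h4
  exact absurd (h2 h3) (not_lt.2 h4)

/-! ### Extension -/

/-- Extension of an `A`-linear map of norm `≤ 0` from `E` to `Ω`. -/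
theorem exists_aop (hO : SphC v) (hAE : A ≤ E) (f : Ω → Ω)
    (hadd : ∀ x ∈ E, ∀ y ∈ E, f (x + y) = f x + f y)
    (hlin : ∀ a ∈ A, ∀ y ∈ E, f (a * y) = a * f y)
    (hnorm : ∀ (r : ℝ), ∀ y ∈ E, v.Ge r y → v.Ge r (f y)) :
    ∃ d : Ω → Ω, AOp v A d ∧ ∀ y ∈ E, d y = f y := by
  let E' : Submodule A Ω :=
    { carrier := E
      add_mem' := fun ha hb => add_mem ha hb
      zero_mem' := zero_mem E
      smul_mem' := fun l x hx => by
        rw [Algebra.smul_def]
        exact mul_mem (hAE l.2) hx }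
  let f' : E' →ₗ[A] Ω :=
    { toFun := fun x => f (x : Ω)
      map_add' := fun x y => hadd _ x.2 _ y.2
      map_smul' := fun l x => by
        change f ((l : Ω) * (x : Ω)) = (l : Ω) * f (x : Ω)
        exact hlin l l.2 _ x.2 }
  obtain ⟨g, h1, h2⟩ := hO.exists_ext E' f' fun x b hx => hnorm b _ x.2 hx
  refine ⟨g, ⟨fun x y => map_add g x y, fun a ha y => ?_, fun r y hy => h1 y r hy⟩,
    fun y hy => h2 y hy⟩
  exact g.map_smul (⟨a, ha⟩ : A) y

/-- A functional with value `1` at `z`, `z` not in `E + O_0`. -/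
theorem exists_fnl (hO : SphC v) (hAE : A ≤ E) {z : Ω} (hz : ¬ Nr v E 0 z) :
    ∃ d : Ω → Ω, Fnl v A E d ∧ d z = 1 := by
  have hz' : ∀ a ∈ E, z - a ≠ 0 ∧ v (z - a) < 0 := by
    intro a ha
    constructor
    · intro h0
      exact hz ⟨a, ha, by rw [h0]; exact RVal.Ge.zero⟩
    · by_contra h
      push Not at h
      exact hz ⟨a, ha, fun _ => h⟩
  let E' : Submodule A Ω :=
    { carrier := E
      add_mem' := fun ha hb => add_mem ha hb
      zero_mem' := zero_mem E
      smul_mem' := fun l x hx => by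
        rw [Algebra.smul_def]
        exact mul_mem (hAE l.2) hx }
  have hzE : z ∉ E' := fun h => (hz' z h).1 (sub_self z)
  let f₀ : Ω →ₗ.[A] Ω := ⟨E', 0⟩
  let f₁ := f₀.supSpanSingleton z 1 hzE
  have hn : ∀ (x : f₁.domain) (b : ℝ), v.Ge b (x : Ω) → v.Ge b (f₁ x) := by
    rintro ⟨y, hy⟩ b hb
    have hy' : y ∈ E' ⊔ Submodule.span A {z} := hy
    rcases Submodule.mem_sup.1 hy' with ⟨x, hx, y', hy'', rfl⟩
    rcases Submodule.mem_span_singleton.1 hy'' with ⟨c, rfl⟩
    have e1 : f₁ ⟨x + c • z, hy⟩ = f₀ ⟨x, hx⟩ + c • (1 : Ω) :=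
      LinearPMap.supSpanSingleton_apply_mk _ _ _ _ _ hx c
    rw [e1]
    have e2 : f₀ ⟨x, hx⟩ = 0 := rfl
    rw [e2, zero_add, Algebra.smul_def, mul_one]
    by_cases hc : c = 0
    · rw [hc, map_zero]; exact RVal.Ge.zero
    · have hc' : (c : Ω) ≠ 0 := fun h => hc (Subtype.ext h)
      have hm : -((c : Ω)⁻¹ * x) ∈ E := neg_mem (mul_mem (inv_mem (hAE c.2)) hx)
      obtain ⟨h3, h4⟩ := hz' _ hm
      have e3 : x + c • z = (c : Ω) * (z - -((c : Ω)⁻¹ * x)) := by
        rw [Algebra.smul_def]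
        change x + (c : Ω) * z = _
        field_simp
        ring
      simp only at hb
      rw [e3] at hb
      have h5 := hb (mul_ne_zero hc' h3)
      rw [v.map_mul hc' h3] at h5
      intro _
      change b ≤ v (c : Ω)
      linarith
  obtain ⟨g, h1, h2⟩ := hO.exists_ext f₁.domain f₁.toFun hn
  refine ⟨g, ⟨⟨fun x y => map_add g x y, fun a ha y => ?_, fun r y hy => h1 y r hy⟩, ?_⟩, ?_⟩
  · exact g.map_smul (⟨a, ha⟩ : A) y
  · intro y hy
    have hy' : y ∈ f₁.domain := by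
      rw [LinearPMap.domain_supSpanSingleton]
      exact Submodule.mem_sup_left hy
    rw [h2 y hy']
    have e1 : f₁ ⟨y + (0 : A) • z, by rwa [zero_smul, add_zero]⟩ = f₀ ⟨y, hy⟩ + (0 : A) • (1 : Ω) :=
      LinearPMap.supSpanSingleton_apply_mk _ _ _ _ _ hy 0
    have e2 : f₁.toFun ⟨y, hy'⟩ = f₁ ⟨y + (0 : A) • z, by rwa [zero_smul, add_zero]⟩ := by
      congr 1
      refine Subtype.ext ?_
      simp
    rw [e2, e1, zero_smul, add_zero]
    rfl
  · have hz1 : z ∈ f₁.domain := by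
      rw [LinearPMap.domain_supSpanSingleton]
      exact Submodule.mem_sup_right (Submodule.mem_span_singleton_self z)
    rw [h2 z hz1]
    have e1 : f₁ ⟨0 + (1 : A) • z, by rwa [one_smul, zero_add]⟩ =
        f₀ ⟨0, zero_mem _⟩ + (1 : A) • (1 : Ω) :=
      LinearPMap.supSpanSingleton_apply_mk _ _ _ _ _ (zero_mem _) 1
    have e2 : f₁.toFun ⟨z, hz1⟩ = f₁ ⟨0 + (1 : A) • z, by rwa [one_smul, zero_add]⟩ := by
      congr 1
      refine Subtype.ext ?_
      simp
    rw [e2, e1, one_smul]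
    change (0 : Ω) + 1 = 1
    rw [zero_add]

/-! ### The space of the residue polynomials -/

section WF

/-- The residue polynomials of `d(Z)`, `d` a functional. -/
noncomputable def WF (hk : Ctx0 k v) (A E : IntermediateField k Ω) (Z : MvPolynomial (Fin 2) Ω) :
    Submodule k (MvPolynomial (Fin 2) k) where
  carrier := {N | ∃ d : Ω → Ω, Fnl v A E d ∧ RsP v (cw d Z) N}
  add_mem' := by
    rintro N N' ⟨d, hd, h⟩ ⟨d', hd', h'⟩
    refine ⟨fun y => d y + d' y, hd.addF hd', fun m => ?_⟩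
    have := h.add h' m
    rw [coeff_add, hd.coeff_cw, hd'.coeff_cw] at this
    rwa [(hd.addF hd').coeff_cw]
  zero_mem' := ⟨fun _ => 0, Fnl.zeroF, fun m => by
    rw [(Fnl.zeroF (v := v) (A := A) (E := E)).coeff_cw, coeff_zero, map_zero, sub_zero]
    exact Gt.zero⟩
  smul_mem' := by
    rintro c N ⟨d, hd, h⟩
    refine ⟨fun y => algebraMap k Ω c * d y, hd.smulF hk c, fun m => ?_⟩
    rw [(hd.smulF hk c).coeff_cw, coeff_smul, smul_eq_mul, map_mul, ← mul_sub, mul_comm]
    have h1 := h m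
    rw [hd.coeff_cw] at h1
    have := Gt.mul_ge (r := 0) (r' := 0) h1 (hk.ge c)
    rwa [add_zero] at this

variable {hk : Ctx0 k v} {Z : MvPolynomial (Fin 2) Ω}

theorem mem_WF {N : MvPolynomial (Fin 2) k} :
    N ∈ WF hk A E Z ↔ ∃ d : Ω → Ω, Fnl v A E d ∧ RsP v (cw d Z) N := Iff.rfl

theorem ge_of_lim {y : Ω} (h : Lim v E 0 y) {d : Ω → Ω} (hd : Fnl v A E d) : v.Ge 0 (d y) := by
  have h1 : ∀ ε : ℝ, 0 < ε → v.Ge (-ε) (d y) := by
    intro ε hε
    obtain ⟨a, ha, h1⟩ := h ε hε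
    have h2 := hd.norm _ _ h1
    rwa [hd.sub, hd.van a ha, sub_zero, zero_sub] at h2
  intro h0
  refine le_of_forall_pos_le_add fun ε hε => ?_
  have := h1 ε hε h0
  linarith

/-- Every functional gives an element of `WF`. -/
theorem exists_mem_WF (hZ : ∀ g, Lim v E 0 (coeff g Z)) {d : Ω → Ω} (hd : Fnl v A E d) :
    ∃ N ∈ WF hk A E Z, RsP v (cw d Z) N := by
  obtain ⟨N, hN, -⟩ := exists_rsP hk (f := cw d Z) fun m => by
    rw [hd.coeff_cw]
    exact ge_of_lim (hZ m) hd
  exact ⟨N, ⟨d, hd, hN⟩, hN⟩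

theorem WF_supp {N : MvPolynomial (Fin 2) k} (hN : N ∈ WF hk A E Z) {m : Ex}
    (hm : coeff m Z = 0) : coeff m N = 0 := by
  obtain ⟨d, hd, h⟩ := hN
  exact h.supp hk (by rw [hd.coeff_cw, hm, hd.zero])

theorem WF_zero {N : MvPolynomial (Fin 2) k} (hN : N ∈ WF hk A E Z)
    (hZ : constantCoeff Z = 0) : constantCoeff N = 0 := WF_supp hN hZ

theorem WF_support {N : MvPolynomial (Fin 2) k} (hN : N ∈ WF hk A E Z) :
    N.support ⊆ Z.support := fun m hm => by
  rw [mem_support_iff] at hm ⊢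
  exact fun h => hm (WF_supp hN h)

/-- `WF` is of finite dimension. -/
theorem WF_fg : (WF hk A E Z).FG := by
  have hle : WF hk A E Z ≤ restrictSupport k (Z.support : Set Ex) := fun N hN => by
    rw [mem_restrictSupport_iff]
    exact_mod_cast WF_support hN
  have hfin : FiniteDimensional k (restrictSupport k (Z.support : Set Ex)) :=
    Module.Finite.of_basis (basisRestrictSupport k (Z.support : Set Ex))
  have := Submodule.finiteDimensional_of_le hle
  exact Module.Finite.iff_fg.1 this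

/-- **The end**: if no element of `WF` has the monomial `g`, the coefficient of `Z` at `g` is in
`E + O_0`. -/
theorem WF_nr (hO : SphC v) (hAE : A ≤ E) (hZ : ∀ g, Lim v E 0 (coeff g Z)) {g : Ex}
    (h : ∀ N ∈ WF hk A E Z, coeff g N = 0) : Nr v E 0 (coeff g Z) := by
  by_contra hno
  obtain ⟨d, hd, h1⟩ := exists_fnl hO hAE hno
  obtain ⟨N, hN, h2⟩ := exists_mem_WF (hk := hk) hZ hd
  have h3 := h2 g
  rw [hd.coeff_cw, h1, h N hN, map_zero, sub_zero] at h3
  have h4 := h3 one_ne_zero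
  rw [v.map_one] at h4
  exact lt_irrefl _ h4

end WF

end Pool.Agent.TWFN
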