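import Pool.Agent.Lib.TWFN.B

/-!
# CT, j = 1: the relations from the functionals

`Z` = the jets of `z` (a polynomial whose coefficients are limits of `E`), `τ h`, `h ∈ k²`, the
translations, `m h` the coordinates of `h g`.

* `FJ`: the data; `lamO`: the defect `τ_h Z(g) + Z(h) - Z(h g)`, coefficients in `O_0`;
* `FJ.stab`: `WF` is left stable;
* `FJ.exists_bound`: the right bound;
* `FG`: with the operator `De = e D` and the residue polynomial `G` of `De Z + P(Z) + dA`;
* `FG.rel`: `|P(Z') + G(X)| ≤ r`; `FG.cocycle`; `FG.err`: the error at `X h`;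
* `FG.h3`: the same, coefficientwise.
-/

set_option autoImplicit false

open MvPolynomial

namespace Pool.Agent.TWFN

open Pool.Agent.H15JM (RVal)
open Pool.Agent.LU1 (VPos)
open Pool.Agent.D2 (Ctx0)
open Pool.Agent.TWM
open Pool.Agent.TWS (IsoE SphC)
open Pool.Agent.TWLY

universe u

variable {k Ω : Type u} [Field k] [Field Ω] [Algebra k Ω] {v : RVal Ω}
  {A E : IntermediateField k Ω}

/-- The point `c ∈ k²` in `Ω²`. -/
def ptO (Ω : Type u) [Field Ω] [Algebra k Ω] (c : Fin 2 → k) : Fin 2 → Ω :=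
  fun i => algebraMap k Ω (c i)

/-! ### Small points -/

/-- A polynomial with small coefficients is small at small points. -/
theorem exists_small {f : MvPolynomial (Fin 2) Ω} (hf : ∀ m, VPos v (coeff m f)) :
    ∃ η : ℝ, 0 < η ∧ ∀ X : Fin 2 → Ω, (∀ i, v.Ge (-η) (X i)) → VPos v (eval X f) := by
  classical
  have h1 : ∀ S : Finset Ex, ∃ η : ℝ, 0 < η ∧ ∀ X : Fin 2 → Ω, (∀ i, v.Ge (-η) (X i)) →
      ∀ m ∈ S, VPos v (coeff m f * m.prod fun i e => X i ^ e) := by
    intro S
    induction S using Finset.induction_on with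
    | empty => exact ⟨1, one_pos, fun X _ m hm => absurd hm (Finset.notMem_empty m)⟩
    | insert n S hn ih =>
      obtain ⟨η, hη, h1⟩ := ih
      by_cases h0 : coeff n f = 0
      · refine ⟨η, hη, fun X hX m hm => ?_⟩
        rcases Finset.mem_insert.1 hm with rfl | hm
        · rw [h0, zero_mul]; exact Gt.zero
        · exact h1 X hX m hm
      · have hv := hf n h0
        set D : ℝ := (n 0 : ℝ) + n 1 + 1 with hD
        have hD0 : 0 < D := by positivity
        refine ⟨min η (v (coeff n f) / (2 * D)), lt_min hη (by positivity), fun X hX m hm => ?_⟩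
        rcases Finset.mem_insert.1 hm with rfl | hm
        · set η' := min η (v (coeff m f) / (2 * D)) with hη'
          have e1 : (m.prod fun i e => X i ^ e) = X 0 ^ m 0 * X 1 ^ m 1 := by
            rw [Finsupp.prod_fintype _ _ fun i => pow_zero _, Fin.prod_univ_two]
          have h2 : v.Ge (-(D * η')) (m.prod fun i e => X i ^ e) := by
            rw [e1]
            have h3 := (ge_pow (hX 0) (m 0)).mul (ge_pow (hX 1) (m 1))
            refine h3.mono ?_
            have h4 : 0 ≤ η' := (lt_min hη (by positivity)).le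
            rw [hD]
            nlinarith
          have h3 := (RVal.ge_self (v := v) (coeff m f)).mul h2
          refine Gt.of_ge h3 ?_
          have h4 : η' ≤ v (coeff m f) / (2 * D) := min_le_right _ _
          have h5 : D * η' ≤ v (coeff m f) / 2 := by
            calc D * η' ≤ D * (v (coeff m f) / (2 * D)) := by gcongr
              _ = v (coeff m f) / 2 := by field_simp
          linarith
        · exact h1 X (fun i => (hX i).mono (neg_le_neg (min_le_left _ _))) m hm
  obtain ⟨η, hη, h2⟩ := h1 f.support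
  refine ⟨η, hη, fun X hX => ?_⟩
  rw [eval_eq_sum_mo]
  exact Gt.sum (r := 0) _ _ fun m hm => h2 X hX m hm

theorem eval_mapO (X : Fin 2 → Ω) (g : MvPolynomial (Fin 2) k) :
    eval X (MvPolynomial.map (algebraMap k Ω) g) = aeval X g := by
  rw [aeval_def, eval₂_eq_eval_map]

theorem RsP.small {f : MvPolynomial (Fin 2) Ω} {g : MvPolynomial (Fin 2) k} (h : RsP v f g) :
    ∃ η : ℝ, 0 < η ∧ ∀ X : Fin 2 → Ω, (∀ i, v.Ge (-η) (X i)) →
      VPos v (eval X f - aeval X g) := by
  obtain ⟨η, hη, h1⟩ := exists_small (v := v) (f := f - MvPolynomial.map (algebraMap k Ω) g)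
    fun m => by rw [coeff_sub, coeff_map]; exact h m
  refine ⟨η, hη, fun X hX => ?_⟩
  have := h1 X hX
  rwa [map_sub, eval_mapO] at this

/-! ### The data -/

/-- The defect `τ_h Z(g) + Z(h) - Z(h g)`. -/
noncomputable def lamO (τ : (Fin 2 → k) → Ω →ₐ[k] Ω)
    (m : (Fin 2 → k) → Fin 2 → MvPolynomial (Fin 2) k) (Z : MvPolynomial (Fin 2) Ω)
    (h : Fin 2 → k) : MvPolynomial (Fin 2) Ω :=
  MvPolynomial.map (τ h : Ω →+* Ω) Z + C (constantCoeff (sbO Ω (m h) Z)) - sbO Ω (m h) Z

/-- The data: translations and jets. -/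
structure FJ (v : RVal Ω) (A E : IntermediateField k Ω) (τ : (Fin 2 → k) → Ω →ₐ[k] Ω)
    (m : (Fin 2 → k) → Fin 2 → MvPolynomial (Fin 2) k) (Z : MvPolynomial (Fin 2) Ω) : Prop where
  sph : SphC v
  AE : A ≤ E
  imm : ∀ y : Ω, y ≠ 0 → ∃ a ∈ E, Gt v (v y) (y - a)
  lim : ∀ g, Lim v E 0 (coeff g Z)
  Z0 : constantCoeff Z = 0
  iso : ∀ h, IsoE v v (τ h)
  sur : ∀ h y, ∃ x, τ h x = y
  mA : ∀ h, ∀ a ∈ A, τ h a ∈ A
  mE : ∀ h, ∀ a ∈ E, τ h a ∈ E
  m0 : ∀ h i, constantCoeff (m h i) = h i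
  jet : ∀ h n, v.Ge 0 (coeff n (lamO τ m Z h))

section maps

variable {τ : Ω →ₐ[k] Ω}

theorem coeff_mapO (f : MvPolynomial (Fin 2) Ω) (n : Ex) :
    coeff n (MvPolynomial.map (τ : Ω →+* Ω) f) = τ (coeff n f) := by
  rw [coeff_map]; rfl

theorem eval_mapT (f : MvPolynomial (Fin 2) Ω) (X : Fin 2 → Ω) :
    eval (fun i => τ (X i)) (MvPolynomial.map (τ : Ω →+* Ω) f) = τ (eval X f) := by
  induction f using MvPolynomial.induction_on with
  | C a => simp
  | add f g hf hg => rw [map_add, map_add, hf, hg, map_add, map_add]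
  | mul_X f i hf =>
    rw [map_mul, map_mul, hf, map_mul, map_mul, map_X, eval_X, eval_X]

theorem aeval_mapT (g : MvPolynomial (Fin 2) k) (X : Fin 2 → Ω) :
    aeval (fun i => τ (X i)) g = τ (aeval X g) := by
  induction g using MvPolynomial.induction_on with
  | C a => rw [← algebraMap_eq, AlgHom.commutes, AlgHom.commutes, τ.commutes]
  | add f g hf hg => rw [map_add, hf, hg, map_add, map_add]
  | mul_X f i hf => rw [map_mul, hf, map_mul, map_mul, aeval_X, aeval_X]

/-- `(sbO m f)(X) = f(m(X))`. -/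
theorem eval_sbO (m : Fin 2 → MvPolynomial (Fin 2) k) (f : MvPolynomial (Fin 2) Ω)
    (X : Fin 2 → Ω) : eval X (sbO Ω m f) = eval (fun i => aeval X (m i)) f := by
  induction f using MvPolynomial.induction_on with
  | C a => simp [sbO]
  | add f g hf hg => rw [map_add, map_add, hf, hg, map_add]
  | mul_X f i hf =>
    rw [map_mul, map_mul, hf, map_mul]
    congr 1
    rw [sbO, aeval_X, eval_X, eval_mapO]

theorem aeval_sbk (m : Fin 2 → MvPolynomial (Fin 2) k) (f : MvPolynomial (Fin 2) k)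
    (X : Fin 2 → Ω) : aeval X (sbk m f) = aeval (fun i => aeval X (m i)) f := by
  induction f using MvPolynomial.induction_on with
  | C a => simp [sbk]
  | add f g hf hg => rw [map_add, map_add, hf, hg, map_add]
  | mul_X f i hf =>
    rw [map_mul, map_mul, hf, map_mul]
    congr 1
    rw [sbk, aeval_X, aeval_X]

theorem constantCoeff_sbO {m : Fin 2 → MvPolynomial (Fin 2) k} {h : Fin 2 → k}
    (hm : ∀ i, constantCoeff (m i) = h i) (f : MvPolynomial (Fin 2) Ω) :
    constantCoeff (sbO Ω m f) = eval (ptO Ω h) f := by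
  induction f using MvPolynomial.induction_on with
  | C a => simp [sbO]
  | add f g hf hg => rw [map_add, map_add, hf, hg, map_add]
  | mul_X f i hf =>
    rw [map_mul, map_mul, hf, map_mul]
    congr 1
    rw [sbO, aeval_X, eval_X, constantCoeff_map, hm]
    rfl

theorem constantCoeff_sbk {m : Fin 2 → MvPolynomial (Fin 2) k} {h : Fin 2 → k}
    (hm : ∀ i, constantCoeff (m i) = h i) (f : MvPolynomial (Fin 2) k) :
    constantCoeff (sbk m f) = eval h f := by
  induction f using MvPolynomial.induction_on with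
  | C a => simp [sbk]
  | add f g hf hg => rw [map_add, map_add, hf, hg, map_add]
  | mul_X f i hf =>
    rw [map_mul, map_mul, hf, map_mul]
    congr 1
    rw [sbk, aeval_X, eval_X, hm]

end maps

namespace FJ

variable {τ : (Fin 2 → k) → Ω →ₐ[k] Ω} {m : (Fin 2 → k) → Fin 2 → MvPolynomial (Fin 2) k}
  {Z : MvPolynomial (Fin 2) Ω}

/-- `τ_h⁻¹ d τ_h`. -/
theorem exists_conj (h : FJ v A E τ m Z) (c : Fin 2 → k) {d : Ω → Ω} (hd : AOp v A d) :
    ∃ d' : Ω → Ω, AOp v A d' ∧ ∀ y, τ c (d' y) = d (τ c y) := by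
  choose inv hinv using h.sur c
  have hinj : Function.Injective (τ c) := (τ c).toRingHom.injective
  refine ⟨fun y => inv (d (τ c y)), ⟨fun x y => hinj ?_, fun a ha y => hinj ?_, fun r y hy => ?_⟩,
    fun y => hinv _⟩
  · rw [hinv, map_add (τ c), map_add (τ c), hinv, hinv, hd.add]
  · rw [hinv, map_mul (τ c), map_mul (τ c), hinv, hd.lin _ (h.mA c a ha)]
  · refine (h.iso c).ge_iff.1 ?_
    rw [hinv]
    exact hd.norm _ _ ((h.iso c).ge_iff.2 hy)

theorem vpos_iff (h : FJ v A E τ m Z) (c : Fin 2 → k) {x : Ω} {a : k} :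
    VPos v (τ c x - algebraMap k Ω a) ↔ VPos v (x - algebraMap k Ω a) := by
  have e : τ c x - algebraMap k Ω a = τ c (x - algebraMap k Ω a) := by
    rw [map_sub, (τ c).commutes]
  rw [e]
  exact (h.iso c).gt_iff (c := 0)

theorem rsP_map (h : FJ v A E τ m Z) (c : Fin 2 → k) {f : MvPolynomial (Fin 2) Ω}
    {g : MvPolynomial (Fin 2) k} (hf : RsP v f g) :
    RsP v (MvPolynomial.map (τ c : Ω →+* Ω) f) g := fun n => by
  rw [coeff_mapO, h.vpos_iff]
  exact hf n

/-- `d` of the coefficients of the defect. -/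
theorem cw_lamO (c : Fin 2 → k) {d : Ω → Ω} (hd : AOp (k := k) v A d) :
    cw d (lamO τ m Z c) = cw d (MvPolynomial.map (τ c : Ω →+* Ω) Z) +
      C (constantCoeff (sbO Ω (m c) (cw d Z))) - sbO Ω (m c) (cw d Z) := by
  rw [lamO, hd.cw_sub, hd.cw_add, hd.cw_sbO, hd.cw_C]
  congr 3
  rw [← hd.cw_sbO]
  exact (hd.coeff_cw _ 0).symm

theorem rsP_lamO (h : FJ v A E τ m Z) (c : Fin 2 → k) {d : Ω → Ω} (hd : AOp v A d)
    (hs : Strct v d) : RsP v (cw d (lamO τ m Z c)) (0 : MvPolynomial (Fin 2) k) := fun n => by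
  rw [hd.coeff_cw, coeff_zero, map_zero, sub_zero]
  exact hd.strict_ge hs (h.jet c n)

/-- The functional `τ_h⁻¹ d τ_h`, its residue polynomial. -/
theorem rsP_conj (h : FJ v A E τ m Z) (hk : Ctx0 k v) (c : Fin 2 → k) {d d' : Ω → Ω}
    (hd : AOp v A d) (hs : Strct v d) (hd' : AOp v A d') (he : ∀ y, τ c (d' y) = d (τ c y))
    {N : MvPolynomial (Fin 2) k} (hN : RsP v (cw d Z) N) :
    RsP v (cw d' Z) (sbk (m c) N - C (constantCoeff (sbk (m c) N))) := by
  have h1 : RsP v (cw d (MvPolynomial.map (τ c : Ω →+* Ω) Z))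
      (sbk (m c) N - C (constantCoeff (sbk (m c) N))) := by
    have h2 := ((h.rsP_lamO c hd hs).add (hN.sb (m := m c) hk)).sub (hN.sb (m := m c) hk).const
    rw [cw_lamO c hd, zero_add] at h2
    refine h2.congr fun n => ?_
    have e : coeff n (cw d (MvPolynomial.map (τ c : Ω →+* Ω) Z)) -
        coeff n (cw d (MvPolynomial.map (τ c : Ω →+* Ω) Z) +
          C (constantCoeff (sbO Ω (m c) (cw d Z))) - sbO Ω (m c) (cw d Z) +
          sbO Ω (m c) (cw d Z) - C (constantCoeff (sbO Ω (m c) (cw d Z)))) = 0 := by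
      rw [← coeff_sub]
      have : cw d (MvPolynomial.map (τ c : Ω →+* Ω) Z) -
        (cw d (MvPolynomial.map (τ c : Ω →+* Ω) Z) +
          C (constantCoeff (sbO Ω (m c) (cw d Z))) - sbO Ω (m c) (cw d Z) +
          sbO Ω (m c) (cw d Z) - C (constantCoeff (sbO Ω (m c) (cw d Z)))) = 0 := by ring
      rw [this, coeff_zero]
    rw [e]
    exact Gt.zero
  intro n
  have h3 := h1 n
  rw [hd.coeff_cw, coeff_mapO, ← he, h.vpos_iff] at h3
  rwa [hd'.coeff_cw]

/-- **Left stability.** -/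
theorem stab (h : FJ v A E τ m Z) (hk : Ctx0 k v) (c : Fin 2 → k) {N : MvPolynomial (Fin 2) k}
    (hN : N ∈ WF hk A E Z) :
    sbk (m c) N - C (constantCoeff (sbk (m c) N)) ∈ WF hk A E Z := by
  obtain ⟨d, hd, h1⟩ := hN
  obtain ⟨d', hd', h2⟩ := h.exists_conj c hd.toAOp
  refine ⟨d', ⟨hd', fun y hy => ?_⟩, h.rsP_conj hk c hd.toAOp (hd.strict h.imm) hd' h2 h1⟩
  have h3 := h2 y
  rw [hd.van _ (h.mE c y hy)] at h3
  exact (map_eq_zero (τ c)).1 h3

/-- **The right bound**, at `X`. -/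
theorem exists_bound (h : FJ v A E τ m Z) (hk : Ctx0 k v) : ∃ η : ℝ, 0 < η ∧
    ∀ X : Fin 2 → Ω, (∀ i, v.Ge (-η) (X i)) →
      (∀ g ∈ Z.support, (g.prod fun i e => X i ^ e) ∈ A) → ∀ Za ∈ E, ∀ r ≤ 0,
      v.Ge r (Za - eval X Z) → ∀ N ∈ WF hk A E Z, Gt v r (aeval X N) := by
  classical
  obtain ⟨S, hS⟩ := (WF_fg : (WF hk A E Z).FG)
  have h1 : ∀ S' : Finset (MvPolynomial (Fin 2) k), (∀ N ∈ S', N ∈ WF hk A E Z) →
      ∃ η : ℝ, 0 < η ∧ ∀ X : Fin 2 → Ω, (∀ i, v.Ge (-η) (X i)) →
      (∀ g ∈ Z.support, (g.prod fun i e => X i ^ e) ∈ A) → ∀ Za ∈ E, ∀ r ≤ 0,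
      v.Ge r (Za - eval X Z) → ∀ N ∈ S', Gt v r (aeval X N) := by
    intro S'
    induction S' using Finset.induction_on with
    | empty => exact fun _ => ⟨1, one_pos, fun X _ _ Za _ r _ _ N hN =>
        absurd hN (Finset.notMem_empty N)⟩
    | insert N S' _ ih =>
      intro hS'
      obtain ⟨η, hη, h1⟩ := ih fun N' hN' => hS' N' (Finset.mem_insert_of_mem hN')
      obtain ⟨d, hd, h2⟩ := hS' N (Finset.mem_insert_self N S')
      obtain ⟨η', hη', h3⟩ := h2.small
      refine ⟨min η η', lt_min hη hη', fun X hX hm Za hZa r hr hr1 N' hN' => ?_⟩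
      rcases Finset.mem_insert.1 hN' with rfl | hN'
      · have h4 := h3 X fun i => (hX i).mono (neg_le_neg (min_le_right _ _))
        have h5 : Gt v r (d (Za - eval X Z)) := hd.toAOp.strict_ge (hd.strict h.imm) hr1
        rw [hd.sub, hd.van _ hZa, zero_sub, hd.toAOp.eval_cw hm] at h5
        have e : aeval X N' = -(-(eval X (cw d Z))) - (eval X (cw d Z) - aeval X N') := by ring
        rw [e]
        exact h5.neg.sub (Gt.mono (r := 0) h4 hr)
      · exact h1 X (fun i => (hX i).mono (neg_le_neg (min_le_left _ _))) hm Za hZa r hr hr1 N' hN'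
  obtain ⟨η, hη, h2⟩ := h1 S fun N hN => by
    rw [← hS]; exact Submodule.subset_span hN
  refine ⟨η, hη, fun X hX hm Za hZa r hr hr1 N hN => ?_⟩
  rw [← hS] at hN
  induction hN using Submodule.span_induction with
  | mem N hN => exact h2 X hX hm Za hZa r hr hr1 N hN
  | zero => rw [map_zero]; exact Gt.zero
  | add N N' _ _ h3 h4 => rw [map_add]; exact h3.add h4
  | smul a N _ h3 =>
    rw [map_smul, Algebra.smul_def, mul_comm]
    have := h3.mul_ge (hk.ge a)
    rwa [add_zero] at this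

end FJ

end Pool.Agent.TWFN
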