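import Pool.Agent.Lib.TWFN.C

/-!
# CT, j = 1: the relations from the functionals II

* `exists_grid`: on a finite set of exponents the coefficients are combinations of values on a finite
  set of points of `k²`;
* `FG`: `FJ` with the operator `De = e D` and the residue polynomial `G` of `De Z + P(Z) + dA`;
* `FG.rel`: `|P(Z') + G(X)| ≤ r`;
* `FG.cocycle`: `G(h g) - G(g) - G(h) + P(lam_h) + om_h` is in `WF`;
* `FG.err`: the error at `X h`, for one `h`; `FG.h3`: coefficientwise.
-/

set_option autoImplicit false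

open MvPolynomial

namespace Pool.Agent.TWFN

open Pool.Agent.H15JM (RVal)
open Pool.Agent.LU1 (VPos)
open Pool.Agent.D2 (Ctx0)
open Pool.Agent.TWM
open Pool.Agent.TWS (IsoE SphC)
open Pool.Agent.TWLY

universe u

variable {k Ω : Type u} [Field k] [Field Ω] [Algebra k Ω] {v : RVal Ω}
  {A E : IntermediateField k Ω}

/-! ### Grids -/

theorem exists_comb [Infinite k] (S : Finset Ex) (m : Ex) :
    ∃ (C : Finset (Fin 2 → k)) (a : (Fin 2 → k) → k), ∀ n ∈ S,
      ∑ c ∈ C, a c * (n.prod fun i e => c i ^ e) = if n = m then 1 else 0 := by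
  classical
  let vec : (Fin 2 → k) → (S → k) := fun c n => (n : Ex).prod fun i e => c i ^ e
  have htop : Submodule.span k (Set.range vec) = ⊤ := by
    by_contra hne
    obtain ⟨x, -, hx⟩ := SetLike.exists_of_lt (lt_top_iff_ne_top.2 hne)
    obtain ⟨φ, hφ, hV⟩ := Submodule.exists_le_ker_of_notMem hx
    set G : MvPolynomial (Fin 2) k :=
      ∑ n : S, monomial (n : Ex) (φ (Pi.single n 1)) with hG
    have hval : ∀ c : Fin 2 → k, eval c G = φ (vec c) := by
      intro c
      have e1 : vec c = ∑ n : S, (vec c n) • (Pi.single n (1 : k) : S → k) := by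
        funext j
        rw [Finset.sum_apply]
        simp [Pi.single_apply]
      rw [hG, map_sum]
      conv_rhs => rw [e1, map_sum]
      refine Finset.sum_congr rfl fun n _ => ?_
      rw [map_smul, eval_monomial, smul_eq_mul, mul_comm]
    have h0 : G = 0 := by
      refine MvPolynomial.funext fun c => ?_
      rw [hval, map_zero]
      exact hV (Submodule.subset_span ⟨c, rfl⟩)
    have h1 : ∀ n : S, φ (Pi.single n 1) = 0 := by
      intro n
      have e1 : coeff (n : Ex) G = φ (Pi.single n 1) := by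
        rw [hG, coeff_sum, Finset.sum_eq_single n]
        · rw [coeff_monomial, if_pos rfl]
        · intro b _ hb
          rw [coeff_monomial, if_neg]
          exact fun h => hb (Subtype.ext h)
        · intro h
          exact absurd (Finset.mem_univ n) h
      rw [← e1, h0, coeff_zero]
    refine hφ ?_
    have e2 : x = ∑ n : S, (x n) • (Pi.single n (1 : k) : S → k) := by
      funext j
      rw [Finset.sum_apply]
      simp [Pi.single_apply]
    rw [e2, map_sum]
    refine Finset.sum_eq_zero fun n _ => ?_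
    rw [map_smul, h1, smul_zero]
  have hmem : (fun n : S => if (n : Ex) = m then (1 : k) else 0) ∈
      Submodule.span k (Set.range vec) := by rw [htop]; trivial
  rw [← Set.image_univ, Submodule.mem_span_image_iff_exists_fun] at hmem
  obtain ⟨C, -, a, ha⟩ := hmem
  refine ⟨C, fun c => if hc : c ∈ C then a ⟨c, hc⟩ else 0, fun n hn => ?_⟩
  have h1 := congr_fun ha ⟨n, hn⟩
  rw [Finset.sum_apply] at h1
  rw [← h1, ← Finset.sum_coe_sort]
  refine Finset.sum_congr rfl fun c _ => ?_
  simp [vec]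

/-- **Grids**: finitely many points decide in which `k`-subspaces the coefficients are. -/
theorem exists_grid [Infinite k] (S : Finset Ex) : ∃ C : Finset (Fin 2 → k),
    ∀ (V : Submodule k Ω) (F : MvPolynomial (Fin 2) Ω), F.support ⊆ S →
      (∀ c ∈ C, eval (ptO Ω c) F ∈ V) → ∀ m, coeff m F ∈ V := by
  classical
  choose C a h using fun m => exists_comb (k := k) S m
  refine ⟨S.biUnion C, fun V F hF hV m => ?_⟩
  by_cases hm : m ∈ S
  · have e1 : coeff m F = ∑ c ∈ C m, a m c • eval (ptO Ω c) F := by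
      have e2 : ∀ c, a m c • eval (ptO Ω c) F =
          ∑ n ∈ S, coeff n F * algebraMap k Ω (a m c * (n.prod fun i e => c i ^ e)) := by
        intro c
        rw [eval_eq_sum_mo, Finset.sum_subset hF
          (f := fun g => coeff g F * g.prod fun i e => ptO Ω c i ^ e) fun n _ hn => by
            rw [notMem_support_iff.1 hn, zero_mul], Finset.smul_sum]
        refine Finset.sum_congr rfl fun n _ => ?_
        have e3 : algebraMap k Ω (n.prod fun i e => c i ^ e) =
            n.prod fun i e => ptO Ω c i ^ e := by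
          rw [Finsupp.prod_fintype _ _ fun i => pow_zero _,
            Finsupp.prod_fintype _ _ fun i => pow_zero _, map_prod]
          refine Finset.prod_congr rfl fun i _ => ?_
          rw [map_pow]
          rfl
        rw [map_mul, e3, Algebra.smul_def]
        ring
      simp_rw [e2]
      rw [Finset.sum_comm]
      simp_rw [← Finset.mul_sum, ← map_sum]
      rw [Finset.sum_eq_single m]
      · rw [h m m hm, if_pos rfl, map_one, mul_one]
      · intro n hn hnm
        rw [h m n hn, if_neg hnm, map_zero, mul_zero]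
      · exact fun h' => absurd hm h'
    rw [e1]
    exact sum_mem fun c hc => V.smul_mem _
      (hV c (Finset.mem_biUnion.2 ⟨m, hm, hc⟩))
  · have : coeff m F = 0 := by
      by_contra h0
      exact hm (hF (mem_support_iff.2 h0))
    rw [this]
    exact V.zero_mem

/-- The `k`-subspace `|y| ≤ -r`. -/
def geV (hk : Ctx0 k v) (r : ℝ) : Submodule k Ω where
  carrier := {y | v.Ge r y}
  add_mem' := fun h h' => h.add h'
  zero_mem' := RVal.Ge.zero
  smul_mem' := fun c y hy => by
    rw [Algebra.smul_def]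
    have := (hk.ge c).mul hy
    rwa [zero_add] at this

/-! ### The relations -/

/-- The data with the operator and the residue polynomial. -/
structure FG (p : ℕ) (v : RVal Ω) (A E : IntermediateField k Ω) (τ : (Fin 2 → k) → Ω →ₐ[k] Ω)
    (m : (Fin 2 → k) → Fin 2 → MvPolynomial (Fin 2) k) (Z dA : MvPolynomial (Fin 2) Ω)
    (De : Ω → Ω) (κ : ℕ → k) (t : ℕ) (om : (Fin 2 → k) → MvPolynomial (Fin 2) k)
    (G : MvPolynomial (Fin 2) k) : Prop extends FJ v A E τ m Z where
  op : AOp v A De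
  str : Strct v De
  comm : ∀ h, ∀ y ∈ E, De (τ h y) = τ h (De y)
  hdA : ∀ h, RsP v (MvPolynomial.map (τ h : Ω →+* Ω) dA + C (constantCoeff (sbO Ω (m h) dA)) -
    sbO Ω (m h) dA) (om h)
  res : RsP v (cw De Z + PP p κ t Z + dA) G

theorem eval_PPO {p : ℕ} {κ : ℕ → k} {t : ℕ} (X : Fin 2 → Ω) (y : MvPolynomial (Fin 2) Ω) :
    eval X (PP p κ t y) = PP p κ t (eval X y) := by
  have h := PP_map (p := p) (κ := κ) (t := t)
    ((aeval X : MvPolynomial (Fin 2) Ω →ₐ[Ω] Ω).restrictScalars k) y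
  simpa [AlgHom.restrictScalars_apply, coe_aeval_eq_eval] using h

theorem aeval_PPO {p : ℕ} {κ : ℕ → k} {t : ℕ} (X : Fin 2 → Ω) (y : MvPolynomial (Fin 2) k) :
    aeval X (PP p κ t y) = PP p κ t (aeval X y : Ω) :=
  PP_map (p := p) (κ := κ) (t := t) (aeval X : MvPolynomial (Fin 2) k →ₐ[k] Ω) y

theorem PP_gt {p : ℕ} [hp : Fact p.Prime] (hk : Ctx0 k v) {κ : ℕ → k} {t : ℕ} {y : Ω}
    (hy : VPos v y) : VPos v (PP p κ t y) := by
  unfold PP
  refine Gt.sum (r := 0) _ _ fun i _ => ?_
  rw [mul_comm]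
  have h1 : Gt v 0 (y ^ p ^ (i + 1)) := by
    intro h0
    have hy0 : y ≠ 0 := fun h => h0 (by rw [h, zero_pow (pow_ne_zero _ hp.out.ne_zero)])
    rw [v.map_pow hy0]
    exact mul_pos (by exact_mod_cast pow_pos hp.out.pos _) (hy hy0)
  have := h1.mul_ge (hk.ge (κ i))
  rwa [add_zero] at this

theorem PP_ge {p : ℕ} (hk : Ctx0 k v) {κ : ℕ → k} {t : ℕ} {y : Ω}
    (hy : v.Ge 0 y) : v.Ge 0 (PP p κ t y) := by
  unfold PP
  refine RVal.Ge.sum _ _ fun i _ => ?_
  have h1 : v.Ge 0 (y ^ p ^ (i + 1)) := by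
    have := ge_pow hy (p ^ (i + 1))
    rwa [mul_zero] at this
  have := (hk.ge (κ i)).mul h1
  rwa [zero_add] at this

/-- `P` respects residues. -/
theorem RsP.PP {p : ℕ} [Fact p.Prime] [CharP Ω p] (hk : Ctx0 k v) {κ : ℕ → k} {t : ℕ}
    {f : MvPolynomial (Fin 2) Ω} {g : MvPolynomial (Fin 2) k} (h : RsP v f g) :
    RsP v (TWLY.PP p κ t f) (TWLY.PP p κ t g) := by
  classical
  have hCk : CharP k p := by
    refine (Algebra.charP_iff k Ω p).2 inferInstance
  -- `f = map g + δ`, `δ` has small coefficients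
  set δ := f - MvPolynomial.map (algebraMap k Ω) g with hδ
  have hδ' : ∀ m, VPos v (coeff m δ) := fun m => by
    rw [hδ, coeff_sub, coeff_map]; exact h m
  have e1 : TWLY.PP p κ t f =
      MvPolynomial.map (algebraMap k Ω) (TWLY.PP p κ t g) + TWLY.PP p κ t δ := by
    have e2 : TWLY.PP p κ t (MvPolynomial.map (algebraMap k Ω) g) =
        MvPolynomial.map (algebraMap k Ω) (TWLY.PP p κ t g) :=
      (PP_map (p := p) (κ := κ) (t := t)
        (MvPolynomial.mapAlgHom (σ := Fin 2) (Algebra.ofId k Ω)) g).symm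
    rw [← e2, ← PP_add, hδ, add_sub_cancel]
  intro m
  rw [e1, coeff_add, coeff_map, add_sub_cancel_left]
  have e3 : coeff m (TWLY.PP p κ t δ) =
      ∑ i ∈ Finset.range (t + 1), algebraMap k Ω (κ i) * coeff m (δ ^ p ^ (i + 1)) := by
    unfold TWLY.PP
    rw [coeff_sum]
    refine Finset.sum_congr rfl fun i _ => ?_
    rw [IsScalarTower.algebraMap_apply k Ω (MvPolynomial (Fin 2) Ω), algebraMap_eq, coeff_C_mul]
  rw [e3]
  refine Gt.sum (r := 0) _ _ fun i _ => ?_
  have h1 : Gt v 0 (coeff m (δ ^ p ^ (i + 1))) := by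
    intro h0
    obtain ⟨n, rfl, hn⟩ := exists_of_coeff_pow p δ (i + 1) h0
    rw [coeff_pow_smul, v.map_pow hn]
    exact mul_pos (by exact_mod_cast pow_pos (Nat.Prime.pos Fact.out) _) (hδ' n hn)
  rw [mul_comm]
  have := h1.mul_ge (hk.ge (κ i))
  rwa [add_zero] at this

namespace FG

variable {τ : (Fin 2 → k) → Ω →ₐ[k] Ω} {m : (Fin 2 → k) → Fin 2 → MvPolynomial (Fin 2) k}
  {Z dA : MvPolynomial (Fin 2) Ω} {De : Ω → Ω} {p : ℕ} [hp : Fact p.Prime] [CharP Ω p]
  {κ : ℕ → k} {t : ℕ} {om : (Fin 2 → k) → MvPolynomial (Fin 2) k} {G : MvPolynomial (Fin 2) k}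

/-- **The relation.** -/
theorem rel (h : FG p v A E τ m Z dA De κ t om G) : ∃ η : ℝ, 0 < η ∧
    ∀ X : Fin 2 → Ω, (∀ i, v.Ge (-η) (X i)) →
      (∀ g ∈ Z.support, (g.prod fun i e => X i ^ e) ∈ A) → ∀ (Za : Ω) (r : ℝ), r ≤ 0 →
      v.Ge r (De (Za - eval X Z)) → v.Ge r (De Za + PP p κ t Za + eval X dA) →
      v.Ge r (PP p κ t (Za - eval X Z) + aeval X G) := by
  obtain ⟨η, hη, h1⟩ := h.res.small
  refine ⟨η, hη, fun X hX hm Za r hr h2 h3 => ?_⟩
  have h4 := h1 X hX
  rw [map_add, map_add, eval_PPO, ← h.op.eval_cw hm] at h4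
  rw [h.op.sub] at h2
  have e : PP p κ t (Za - eval X Z) + aeval X G =
      (De Za + PP p κ t Za + eval X dA) - (De Za - De (eval X Z)) -
      (De (eval X Z) + PP p κ t (eval X Z) + eval X dA - aeval X G) := by
    rw [PP_sub]; ring
  rw [e]
  exact (h3.sub h2).sub (Gt.mono (r := 0) h4 hr).ge

/-- **The cocycle.** -/
theorem cocycle (h : FG p v A E τ m Z dA De κ t om G) (hk : Ctx0 k v) (c : Fin 2 → k) :
    ∃ lam : MvPolynomial (Fin 2) k, RsP v (lamO τ m Z c) lam ∧
      (∀ n, coeff n (lamO τ m Z c) = 0 → coeff n lam = 0) ∧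
      ∃ N ∈ WF hk A E Z, sbk (m c) G - G - C (constantCoeff (sbk (m c) G)) + PP p κ t lam + om c =
        N ∧ ((∀ y, De y = 0) → N = 0) := by
  classical
  obtain ⟨lam, hlam, hlam0⟩ := exists_rsP hk (f := lamO τ m Z c) (h.jet c)
  obtain ⟨d', hd', hd'τ⟩ := h.toFJ.exists_conj c h.op
  -- the functional `τ_h⁻¹ De τ_h - De`
  have hd : Fnl v A E fun y => d' y - De y :=
    { add := fun x y => by rw [hd'.add, h.op.add]; ring
      lin := fun a ha y => by rw [hd'.lin a ha, h.op.lin a ha]; ring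
      norm := fun r y hy => (hd'.norm r y hy).sub (h.op.norm r y hy)
      van := fun y hy => by
        have h1 := hd'τ y
        rw [h.comm c y hy] at h1
        rw [(τ c).toRingHom.injective h1, sub_self] }
  obtain ⟨N, hN, hNr⟩ := exists_mem_WF (hk := hk) h.lim hd
  refine ⟨lam, hlam, hlam0, N, hN, ?_, fun h0 => ?_⟩
  · -- residues of `map τ B`
    set B := cw De Z + PP p κ t Z + dA with hB
    have h1 : RsP v (MvPolynomial.map (τ c : Ω →+* Ω) B) G := h.toFJ.rsP_map c h.res
    have h2 : RsP v (sbO Ω (m c) B) (sbk (m c) G) := h.res.sb hk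
    have h3 : RsP v (PP p κ t (lamO τ m Z c)) (PP p κ t lam) := hlam.PP hk
    -- `N` as a residue of `De τ_h Z - τ_h De Z`
    have h4 : RsP v (cw De (MvPolynomial.map (τ c : Ω →+* Ω) Z) -
        MvPolynomial.map (τ c : Ω →+* Ω) (cw De Z)) N := by
      intro n
      have h5 := hNr n
      rw [hd.coeff_cw] at h5
      rw [coeff_sub, h.op.coeff_cw, coeff_mapO, coeff_mapO, h.op.coeff_cw, ← hd'τ, ← map_sub,
        h.toFJ.vpos_iff]
      exact h5
    have h5 := h.toFJ.rsP_lamO c h.op h.str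
    rw [FJ.cw_lamO c h.op] at h5
    have h6 := h.hdA c
    have h7 : RsP v (MvPolynomial.map (τ c : Ω →+* Ω) B - sbO Ω (m c) B +
        C (constantCoeff (sbO Ω (m c) B)) - PP p κ t (lamO τ m Z c))
        (G - sbk (m c) G + C (constantCoeff (sbk (m c) G)) - PP p κ t lam) :=
      ((h1.sub h2).add h2.const).sub h3
    have h8 := (h5.add h6).sub h4
    have e1 : MvPolynomial.map (τ c : Ω →+* Ω) B - sbO Ω (m c) B +
        C (constantCoeff (sbO Ω (m c) B)) - PP p κ t (lamO τ m Z c) =
        (cw De (MvPolynomial.map (τ c : Ω →+* Ω) Z) +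
          C (constantCoeff (sbO Ω (m c) (cw De Z))) - sbO Ω (m c) (cw De Z) +
        (MvPolynomial.map (τ c : Ω →+* Ω) dA + C (constantCoeff (sbO Ω (m c) dA)) -
          sbO Ω (m c) dA)) -
        (cw De (MvPolynomial.map (τ c : Ω →+* Ω) Z) -
          MvPolynomial.map (τ c : Ω →+* Ω) (cw De Z)) := by
      have hT : MvPolynomial.map (τ c : Ω →+* Ω) (PP p κ t Z) =
          PP p κ t (MvPolynomial.map (τ c : Ω →+* Ω) Z) :=
        PP_map (p := p) (κ := κ) (t := t) (MvPolynomial.mapAlgHom (σ := Fin 2) (τ c)) Z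
      have hs : sbO Ω (m c) (PP p κ t Z) = PP p κ t (sbO Ω (m c) Z) :=
        PP_map (p := p) (κ := κ) (t := t) ((sbO Ω (m c)).restrictScalars k) Z
      have hc : ∀ x : Ω, (C (PP p κ t x) : MvPolynomial (Fin 2) Ω) = PP p κ t (C x) := fun x =>
        PP_map (p := p) (κ := κ) (t := t)
          ((Algebra.ofId Ω (MvPolynomial (Fin 2) Ω)).restrictScalars k) x
      have hcc : constantCoeff (PP p κ t (sbO Ω (m c) Z)) =
          PP p κ t (constantCoeff (sbO Ω (m c) Z)) := by
        have h9 : ∀ f : MvPolynomial (Fin 2) Ω, constantCoeff f = eval (fun _ => (0 : Ω)) f := by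
          intro f
          exact (congr_fun (congr_arg _ (MvPolynomial.eval_zero (σ := Fin 2) (R := Ω)).symm) f)
        rw [h9, h9, eval_PPO]
      simp only [hB, map_add, hT, hs, hcc, hc]
      rw [lamO, PP_sub, PP_add]
      ring
    rw [e1] at h7
    have h9 := h7.unique hk h8
    have e2 : sbk (m c) G - G - C (constantCoeff (sbk (m c) G)) + PP p κ t lam + om c - N =
        -(G - sbk (m c) G + C (constantCoeff (sbk (m c) G)) - PP p κ t lam) +
        (0 + om c - N) := by ring
    rw [← sub_eq_zero, e2, h9]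
    ring
  · refine hNr.unique hk (g' := 0) fun n => ?_
    have hd0 : ∀ y, d' y = 0 := fun y => (τ c).toRingHom.injective (by
      have := hd'τ y
      rw [h0] at this
      simpa using this)
    rw [hd.coeff_cw, hd0, h0, sub_zero, coeff_zero, map_zero, sub_zero]
    exact Gt.zero

/-- **The error at `X h`**, for one `h`. -/
theorem err (h : FG p v A E τ m Z dA De κ t om G) (hk : Ctx0 k v) (c : Fin 2 → k) :
    ∃ η : ℝ, 0 < η ∧ ∀ X : Fin 2 → Ω, (∀ i, v.Ge (-η) (X i)) →
      (∀ g ∈ Z.support, (g.prod fun i e => X i ^ e) ∈ A) → ∀ Za ∈ E, ∀ r ≤ 0,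
      v.Ge r (Za - eval X Z) → v.Ge r (De Za + PP p κ t Za + eval X dA) →
      v.Ge r (aeval (fun i => τ c (X i)) (om c)) → ∀ b : Ω, v.Ge 0 (τ c Za - Za - b) →
      v.Ge r (PP p κ t (b + eval X Z -
          eval (fun i => aeval (fun j => τ c (X j)) (m c i)) Z + eval (ptO Ω c) Z) +
        aeval (fun i => aeval (fun j => τ c (X j)) (m c i) : Fin 2 → Ω) G - aeval X G) := by
  obtain ⟨η₁, hη₁, h1⟩ := h.rel
  obtain ⟨η₂, hη₂, h2⟩ := h.toFJ.exists_bound hk
  obtain ⟨lam, hlam, -, N, hN, hcoc, -⟩ := h.cocycle hk c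
  obtain ⟨η₃, hη₃, h3⟩ := hlam.small
  refine ⟨min η₁ (min η₂ η₃), lt_min hη₁ (lt_min hη₂ hη₃),
    fun X hX hm Za hZa r hr hZ' htie hom b hb => ?_⟩
  have hX1 : ∀ i, v.Ge (-η₁) (X i) := fun i => (hX i).mono (neg_le_neg (min_le_left _ _))
  have hX2 : ∀ i, v.Ge (-η₂) (X i) := fun i =>
    (hX i).mono (neg_le_neg ((min_le_right _ _).trans (min_le_left _ _)))
  have hX3 : ∀ i, v.Ge (-η₃) (τ c (X i)) := fun i => (h.iso c).ge_iff.2
    ((hX i).mono (neg_le_neg ((min_le_right _ _).trans (min_le_right _ _))))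
  set X' : Fin 2 → Ω := fun i => τ c (X i) with hX'
  set Y : Fin 2 → Ω := fun i => aeval X' (m c i) with hY
  have b1 := h1 X hX1 hm Za r hr (h.op.norm _ _ hZ') htie
  have b2 : v.Ge r (PP p κ t (τ c (Za - eval X Z)) + aeval X' G) := by
    have h4 := (h.iso c).ge_iff.2 b1
    rw [map_add, PP_map] at h4
    rw [hX', aeval_mapT]
    exact h4
  have b3 : Gt v r (aeval X' N) := by
    rw [hX', aeval_mapT]
    exact (h.iso c).gt_iff.2 (h2 X hX2 hm Za hZa r hr hZ' N hN)
  have b4 := h3 X' hX3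
  have hcoc' := congr_arg (fun f => (aeval X' f : Ω)) hcoc
  simp only [map_add, map_sub, aeval_sbk, aeval_PPO, aeval_C] at hcoc'
  have e1 : eval X' (lamO τ m Z c) = τ c (eval X Z) + eval (ptO Ω c) Z - eval Y Z := by
    rw [lamO, map_sub, map_add, hX', eval_mapT, eval_C, eval_sbO,
      constantCoeff_sbO (h.m0 c)]
  have e2 : b + eval X Z - eval Y Z + eval (ptO Ω c) Z =
      (τ c (Za - eval X Z) + (aeval X' lam + (eval X' (lamO τ m Z c) - aeval X' lam))) -
        (Za - eval X Z) - (τ c Za - Za - b) := by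
    rw [add_sub_cancel, e1, map_sub]
    ring
  have e3 : PP p κ t (b + eval X Z - eval Y Z + eval (ptO Ω c) Z) + aeval Y G - aeval X G =
      (PP p κ t (τ c (Za - eval X Z)) + aeval X' G) +
      (aeval X' N + algebraMap k Ω (constantCoeff (sbk (m c) G)) - aeval X' (om c)) +
      PP p κ t (eval X' (lamO τ m Z c) - aeval X' lam) -
      (PP p κ t (Za - eval X Z) + aeval X G) - PP p κ t (τ c Za - Za - b) := by
    rw [e2, PP_sub, PP_sub, PP_add, PP_add, ← hcoc']
    ring
  rw [e3]
  refine ((((b2.add ((b3.ge.add ((hk.ge _).mono hr)).sub hom)).add ?_).sub b1).sub ?_)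
  · exact (Gt.mono (r := 0) (PP_gt hk b4) hr).ge
  · exact (PP_ge hk hb).mono hr

/-- **(h3)**: the error at the right translates of `X`, coefficientwise. -/
theorem h3 [Infinite k] (h : FG p v A E τ m Z dA De κ t om G) (hk : Ctx0 k v) (S : Finset Ex) :
    ∃ η : ℝ, 0 < η ∧ ∀ X : Fin 2 → Ω, (∀ i, v.Ge (-η) (X i)) →
      (∀ g ∈ Z.support, (g.prod fun i e => X i ^ e) ∈ A) → ∀ Za ∈ E, ∀ r ≤ 0,
      v.Ge r (Za - eval X Z) → v.Ge r (De Za + PP p κ t Za + eval X dA) →
      (∀ c, v.Ge r (aeval (fun i => τ c (X i)) (om c))) →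
      ∀ L : Fin 2 → MvPolynomial (Fin 2) Ω,
      (∀ c i, eval (ptO Ω c) (L i) = aeval (fun j => τ c (X j)) (m c i)) →
      ∀ Bz : MvPolynomial (Fin 2) Ω, (∀ c, v.Ge 0 (τ c Za - Za - eval (ptO Ω c) Bz)) →
      (PP p κ t (Bz + C (eval X Z) - aeval L Z + Z) + aeval L G - C (aeval X G)).support ⊆ S →
      ∀ β, v.Ge r (coeff β (PP p κ t (Bz + C (eval X Z) - aeval L Z + Z) + aeval L G -
        C (aeval X G))) := by
  classical
  obtain ⟨C₀, hC₀⟩ := exists_grid (k := k) (Ω := Ω) S
  have h1 : ∀ C' : Finset (Fin 2 → k), ∃ η : ℝ, 0 < η ∧ ∀ X : Fin 2 → Ω,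
      (∀ i, v.Ge (-η) (X i)) →
      (∀ g ∈ Z.support, (g.prod fun i e => X i ^ e) ∈ A) → ∀ Za ∈ E, ∀ r ≤ 0,
      v.Ge r (Za - eval X Z) → v.Ge r (De Za + PP p κ t Za + eval X dA) →
      ∀ c ∈ C', v.Ge r (aeval (fun i => τ c (X i)) (om c)) → ∀ b : Ω,
      v.Ge 0 (τ c Za - Za - b) →
      v.Ge r (PP p κ t (b + eval X Z -
          eval (fun i => aeval (fun j => τ c (X j)) (m c i)) Z + eval (ptO Ω c) Z) +
        aeval (fun i => aeval (fun j => τ c (X j)) (m c i) : Fin 2 → Ω) G - aeval X G) := by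
    intro C'
    induction C' using Finset.induction_on with
    | empty => exact ⟨1, one_pos, fun X _ _ Za _ r _ _ _ c hc =>
        absurd hc (Finset.notMem_empty c)⟩
    | insert c₀ C' _ ih =>
      obtain ⟨η, hη, h1⟩ := ih
      obtain ⟨η', hη', h2⟩ := h.err hk c₀
      refine ⟨min η η', lt_min hη hη', fun X hX hm Za hZa r hr hZ' htie c hc hom b hb => ?_⟩
      rcases Finset.mem_insert.1 hc with rfl | hc
      · exact h2 X (fun i => (hX i).mono (neg_le_neg (min_le_right _ _))) hm Za hZa r hr hZ' htie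
          hom b hb
      · exact h1 X (fun i => (hX i).mono (neg_le_neg (min_le_left _ _))) hm Za hZa r hr hZ' htie
          c hc hom b hb
  obtain ⟨η, hη, h2⟩ := h1 C₀
  refine ⟨η, hη, fun X hX hm Za hZa r hr hZ' htie hom L hL Bz hB hS => ?_⟩
  refine hC₀ (geV hk r) _ hS fun c hc => ?_
  have h3 := h2 X hX hm Za hZa r hr hZ' htie c hc (hom c) _ (hB c)
  have hLz : eval (ptO Ω c) (aeval L Z) =
      eval (fun i => aeval (fun j => τ c (X j)) (m c i)) Z := by
    have e1 : (fun i => aeval (fun j => τ c (X j)) (m c i)) =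
        fun i => eval (ptO Ω c) (L i) := by
      funext i
      rw [hL]
    rw [e1]
    generalize Z = f
    induction f using MvPolynomial.induction_on with
    | C a => simp
    | add f g hf hg => rw [map_add, map_add, hf, hg, map_add]
    | mul_X f i hf => rw [map_mul, map_mul, hf, map_mul, aeval_X, eval_X]
  have hLG : eval (ptO Ω c) (aeval L G) =
      aeval (fun i => aeval (fun j => τ c (X j)) (m c i) : Fin 2 → Ω) G := by
    have e1 : (fun i => aeval (fun j => τ c (X j)) (m c i)) =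
        fun i => eval (ptO Ω c) (L i) := by
      funext i
      rw [hL]
    rw [e1]
    generalize G = f
    induction f using MvPolynomial.induction_on with
    | C a => rw [← algebraMap_eq, AlgHom.commutes, AlgHom.commutes,
        IsScalarTower.algebraMap_apply k Ω (MvPolynomial (Fin 2) Ω), algebraMap_eq, eval_C]
    | add f g hf hg => rw [map_add, map_add, hf, hg, map_add]
    | mul_X f i hf => rw [map_mul, map_mul, hf, map_mul, aeval_X, aeval_X]
  have e4 : eval (ptO Ω c) (PP p κ t (Bz + C (eval X Z) - aeval L Z + Z) + aeval L G -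
      C (aeval X G)) = PP p κ t (eval (ptO Ω c) Bz + eval X Z -
          eval (fun i => aeval (fun j => τ c (X j)) (m c i)) Z + eval (ptO Ω c) Z) +
        aeval (fun i => aeval (fun j => τ c (X j)) (m c i) : Fin 2 → Ω) G - aeval X G := by
    rw [map_sub, map_add, eval_PPO, map_add, map_sub, map_add, eval_C, eval_C, hLz, hLG]
  rw [e4]
  exact h3

end FG

end Pool.Agent.TWFN
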