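import Pool.Agent.Lib.TWFN.D

/-!
# CT, j = 1: the normal form, `e ≠ 0`

`a = e z + x P(z) + a₀`, `e ≠ 0`. Replace `z` by `z + e⁻¹ b`, `b` near `a₀`: then `a₀` becomes
`- x P(e⁻¹ b)`, and the approximations of `z` can be taken in the ring `Rp` generated by `x` and the
`p`-th powers: no derivation is needed.

* `Rp p W R`: the `k`-algebra generated by `W` and the `r ^ p`, `r ∈ R`;
* `nf_tie`: the normal form of the tie, for `e ≠ 0`.
-/

set_option autoImplicit false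

namespace Pool.Agent.TWFN

open Pool.Agent.H15JM (RVal)
open Pool.Agent.LU1 (VPos)
open Pool.Agent.D2 (Ctx0)
open Pool.Agent.TWM
open Pool.Agent.TWS (IsoE SphC)
open Pool.Agent.TWLY

universe u

variable {k Ω : Type u} [Field k] [Field Ω] [Algebra k Ω] {v : RVal Ω}

/-- The ring generated by `W` and the `p`-th powers of the elements of `R`. -/
def Rp (p : ℕ) (W : IntermediateField k Ω) (R : Subalgebra k Ω) : Subalgebra k Ω :=
  Algebra.adjoin k ((W : Set Ω) ∪ (fun r => r ^ p) '' (R : Set Ω))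

variable {W F : IntermediateField k Ω} {R : Subalgebra k Ω} {p : ℕ}

theorem le_Rp {x : Ω} (hx : x ∈ W) : x ∈ Rp p W R :=
  Algebra.subset_adjoin (Or.inl hx)

theorem pow_mem_Rp {r : Ω} (hr : r ∈ R) : r ^ p ∈ Rp p W R :=
  Algebra.subset_adjoin (Or.inr ⟨r, hr, rfl⟩)

/-- `P(y)` is a `p`-th power. -/
theorem exists_PP_eq [hp : Fact p.Prime] [CharP Ω p] (hk : ∀ a : k, ∃ b : k, b ^ p = a)
    (κ : ℕ → k) (t : ℕ) {y : Ω} (hy : y ∈ R) : ∃ b ∈ R, PP p κ t y = b ^ p := by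
  choose rt hrt using hk
  refine ⟨∑ i ∈ Finset.range (t + 1), algebraMap k Ω (rt (κ i)) * y ^ p ^ i,
    sum_mem fun i _ => mul_mem (R.algebraMap_mem _) (pow_mem hy _), ?_⟩
  have : ExpChar Ω p := ExpChar.prime hp.out
  rw [sum_pow_char]
  unfold PP
  refine Finset.sum_congr rfl fun i _ => ?_
  rw [mul_pow, ← map_pow, hrt, ← pow_mul, ← pow_succ]

theorem PP_ge' [hp : Fact p.Prime] (hk : Ctx0 k v) (κ : ℕ → k) (t : ℕ) {y : Ω} {c : ℝ}
    (hc : 0 ≤ c) (hy : v.Ge (-c) y) : v.Ge (-(p ^ (t + 1) * c)) (PP p κ t y) := by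
  unfold PP
  refine RVal.Ge.sum _ _ fun i hi => ?_
  have h1 := (hk.ge (κ i)).mul (ge_pow hy (p ^ (i + 1)))
  refine h1.mono ?_
  have hi' : i + 1 ≤ t + 1 := by
    have := Finset.mem_range.1 hi
    omega
  have h2 : ((p ^ (i + 1) : ℕ) : ℝ) ≤ (p : ℝ) ^ (t + 1) := by
    have := Nat.pow_le_pow_right hp.out.pos hi'
    exact_mod_cast this
  nlinarith

/-- **The normal form of the tie**, `e ≠ 0`. -/
theorem nf_tie [hp : Fact p.Prime] [CharP Ω p] (h0 : Ctx0 k v)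
    (hk : ∀ a : k, ∃ b : k, b ^ p = a) {κ : ℕ → k} {t : ℕ} {e : k} (he : e ≠ 0)
    {x z a₀ b : Ω} (hWR : ∀ y ∈ W, y ∈ R) (hxW : x ∈ W)
    (hx : ∀ ε : ℝ, 0 < ε → ∃ y ∈ W, v.Ge (-ε) (x - y ^ p))
    (hR : ∀ f ∈ F, ∀ C : ℝ, ∃ r ∈ R, v.Ge C (f - r)) (hb : b ∈ R) (hab : v.Ge 0 (a₀ - b))
    (tie : ∀ ε : ℝ, 0 < ε → ∃ θ ∈ F, v.Ge (-ε) (z - θ) ∧
      ∃ h ∈ F, v.Ge (-ε) (algebraMap k Ω e * θ + x * PP p κ t θ + a₀ - h ^ p)) :
    ∀ ε : ℝ, 0 < ε → ∃ θ ∈ Rp p W R,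
      v.Ge (-ε) (z + algebraMap k Ω e⁻¹ * b - θ) ∧
      ∃ h ∈ R, v.Ge (-ε) (algebraMap k Ω e * θ + x * PP p κ t θ -
        x * PP p κ t (algebraMap k Ω e⁻¹ * b) - h ^ p) := by
  intro ε hε
  set Q : ℝ := (p : ℝ) ^ (t + 1) with hQ
  have hQ1 : 1 ≤ Q := one_le_pow₀ (by exact_mod_cast hp.out.one_lt.le)
  set ε₁ : ℝ := ε / (2 * Q) with hε₁
  have hε₁0 : 0 < ε₁ := by positivity
  have hε₁ε : ε₁ ≤ ε / 2 := by
    rw [hε₁, div_le_div_iff₀ (by positivity) (by norm_num)]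
    nlinarith
  have hQε : Q * ε₁ = ε / 2 := by
    rw [hε₁]
    field_simp
  have hee : algebraMap k Ω e * algebraMap k Ω e⁻¹ = 1 := by
    rw [← map_mul, mul_inv_cancel₀ he, map_one]
  obtain ⟨θ₀, hθ₀, h1, g₀, hg₀, h2⟩ := tie ε₁ hε₁0
  obtain ⟨y, hy, hxy⟩ := hx (ε / 2) (by positivity)
  -- the size of `x`
  obtain ⟨M, hM, hxM⟩ : ∃ M : ℝ, 0 ≤ M ∧ v.Ge (-M) x := by
    refine ⟨max 0 (-(v x)), le_max_left _ _, fun _ => ?_⟩
    have := le_max_right 0 (-(v x))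
    linarith
  -- approximate `θ₀`, `g₀` in `R`
  obtain ⟨r, hr, hr1⟩ := hR θ₀ hθ₀ M
  obtain ⟨g, hg, hg1⟩ := hR g₀ hg₀ 0
  set d : Ω := θ₀ - r with hd
  -- the new approximation
  set b' : Ω := algebraMap k Ω e⁻¹ * b with hb'
  have hb'R : b' ∈ R := mul_mem (R.algebraMap_mem _) hb
  set θ' : Ω := r + b' with hθ'
  have hθ'R : θ' ∈ R := add_mem hr hb'R
  set ρ : Ω := algebraMap k Ω e * θ' + x * PP p κ t θ' - x * PP p κ t b' - g ^ p with hρ
  have hρ1 : v.Ge (-ε₁) ρ := by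
    have e1 : ρ = (algebraMap k Ω e * θ₀ + x * PP p κ t θ₀ + a₀ - g₀ ^ p) -
        algebraMap k Ω e * d - x * PP p κ t d - (a₀ - b) + (g₀ - g) ^ p := by
      have : ExpChar Ω p := ExpChar.prime hp.out
      have e2 : (g₀ - g) ^ p = g₀ ^ p - g ^ p := sub_pow_expChar _ _
      rw [e2, hρ, hθ', PP_add, hd, PP_sub, hb']
      linear_combination b * hee
    rw [e1]
    have h3 : v.Ge (-ε₁) (algebraMap k Ω e * d) := ((h0.ge e).mul hr1).mono (by linarith)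
    have h4 : v.Ge (-ε₁) (x * PP p κ t d) := by
      have h5 : v.Ge M (PP p κ t d) := by
        unfold PP
        refine RVal.Ge.sum _ _ fun i _ => ?_
        refine ((h0.ge (κ i)).mul (ge_pow hr1 (p ^ (i + 1)))).mono ?_
        have : (1 : ℝ) ≤ ((p ^ (i + 1) : ℕ) : ℝ) := by
          exact_mod_cast Nat.one_le_pow _ _ hp.out.pos
        nlinarith
      exact (hxM.mul h5).mono (by linarith)
    have h6 : v.Ge (-ε₁) ((g₀ - g) ^ p) := (ge_pow hg1 p).mono (by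
      rw [mul_zero]
      linarith)
    exact (((h2.sub h3).sub h4).sub (hab.mono (by linarith))).add h6
  -- the correction
  set c : Ω := algebraMap k Ω e⁻¹ * ρ with hc
  have hρR : ρ ∈ R :=
    sub_mem (sub_mem (add_mem (mul_mem (R.algebraMap_mem _) hθ'R)
      (mul_mem (hWR x hxW) (by
        unfold PP
        exact sum_mem fun i _ => mul_mem (R.algebraMap_mem _) (pow_mem hθ'R _))))
      (mul_mem (hWR x hxW) (by
        unfold PP
        exact sum_mem fun i _ => mul_mem (R.algebraMap_mem _) (pow_mem hb'R _))))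
      (pow_mem hg _)
  have hcR : c ∈ R := mul_mem (R.algebraMap_mem _) hρR
  have hc1 : v.Ge (-ε₁) c := ((h0.ge e⁻¹).mul hρ1).mono (by linarith)
  obtain ⟨q₁, hq₁, hq₁'⟩ := exists_PP_eq hk κ t hθ'R
  obtain ⟨q₂, hq₂, hq₂'⟩ := exists_PP_eq hk κ t hb'R
  obtain ⟨q₃, hq₃, hq₃'⟩ := exists_PP_eq hk κ t hcR
  refine ⟨θ' - c, ?_, ?_, g - y * q₃, sub_mem hg (mul_mem (hWR y hy) hq₃), ?_⟩
  · -- `θ' - c = e⁻¹ (g ^ p - x P(θ') + x P(b'))`
    have e1 : θ' - c = algebraMap k Ω e⁻¹ * (g ^ p - x * q₁ ^ p + x * q₂ ^ p) := by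
      rw [← hq₁', ← hq₂', hc, hρ]
      linear_combination (-θ') * hee
    rw [e1]
    exact mul_mem ((Rp p W R).algebraMap_mem _) (add_mem (sub_mem (pow_mem_Rp hg)
      (mul_mem (le_Rp hxW) (pow_mem_Rp hq₁))) (mul_mem (le_Rp hxW) (pow_mem_Rp hq₂)))
  · have e1 : z + b' - (θ' - c) = (z - θ₀) + d + c := by
      rw [hθ', hd]
      ring
    rw [e1]
    exact ((h1.mono (by linarith)).add (hr1.mono (by linarith))).add (hc1.mono (by linarith))
  · have : ExpChar Ω p := ExpChar.prime hp.out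
    have e2 : (g - y * q₃) ^ p = g ^ p - y ^ p * q₃ ^ p := by
      rw [sub_pow_expChar, mul_pow]
    have e1 : algebraMap k Ω e * (θ' - c) + x * PP p κ t (θ' - c) - x * PP p κ t b' -
        (g - y * q₃) ^ p = -((x - y ^ p) * PP p κ t c) := by
      rw [e2, PP_sub, ← hq₃', hc]
      linear_combination (-ρ) * hee + hρ
    rw [e1]
    refine RVal.Ge.neg ?_
    have h7 := hxy.mul (PP_ge' (p := p) h0 κ t hε₁0.le hc1)
    refine h7.mono ?_
    rw [← hQ, hQε]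
    linarith

end Pool.Agent.TWFN
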