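import Pool.Agent.Lib.TWFN.NF
import Pool.Agent.Lib.TWII.Soc

/-!
# CT, j = 1: the normal form, `e ≠ 0`, with polynomials

`C = W⟨w⟩`, `F = C⟨u⟩`. The tie for `z - φ`, `φ = - e⁻¹ b`, `b = f(w, u)` near `a₀`: the free term is
`Pa(w, u)`, `Pa = - x P(e⁻¹ f)` with exponents divisible by `p`, the approximations of `z - φ` are
polynomials over `W` with exponents divisible by `p`.
-/

set_option autoImplicit false

open MvPolynomial

namespace Pool.Agent.TWFN

open Pool.Agent.H15JM (RVal)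
open Pool.Agent.LU1 (VPos)
open Pool.Agent.D2 (Ctx0)
open Pool.Agent.TWM
open Pool.Agent.TWS (IsoE SphC)
open Pool.Agent.TWII (PG LP)
open Pool.Agent.TWLY

universe u

variable {k Ω : Type u} [Field k] [Field Ω] [Algebra k Ω] {v : RVal Ω}
  {W : IntermediateField k Ω} {w u : Ω} {p : ℕ}

/-- The values at `(w, u)` of the polynomials over `W`. -/
def PolW (W : IntermediateField k Ω) (w u : Ω) : Subalgebra k Ω where
  carrier := {y | ∃ f : MvPolynomial (Fin 2) Ω, (∀ g, coeff g f ∈ W) ∧ eval ![w, u] f = y}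
  mul_mem' := by
    classical
    rintro x y ⟨f, hf, rfl⟩ ⟨g, hg, rfl⟩
    refine ⟨f * g, fun m => ?_, map_mul _ _ _⟩
    rw [coeff_mul]
    exact sum_mem fun q _ => mul_mem (hf _) (hg _)
  add_mem' := by
    rintro x y ⟨f, hf, rfl⟩ ⟨g, hg, rfl⟩
    refine ⟨f + g, fun m => ?_, map_add _ _ _⟩
    rw [coeff_add]
    exact add_mem (hf _) (hg _)
  algebraMap_mem' := by
    classical
    intro c
    refine ⟨C (algebraMap k Ω c), fun m => ?_, eval_C _⟩
    rw [coeff_C]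
    split_ifs
    · exact W.algebraMap_mem c
    · exact zero_mem _

theorem mem_PolW {y : Ω} : y ∈ PolW W w u ↔
    ∃ f : MvPolynomial (Fin 2) Ω, (∀ g, coeff g f ∈ W) ∧ eval ![w, u] f = y := Iff.rfl

theorem le_PolW {y : Ω} (hy : y ∈ W) : y ∈ PolW W w u := by
  classical
  refine ⟨C y, fun m => ?_, eval_C _⟩
  rw [coeff_C]
  split_ifs
  · exact hy
  · exact zero_mem _

theorem w_mem_PolW : w ∈ PolW W w u := by
  classical
  refine ⟨X 0, fun m => ?_, by simp⟩
  rw [coeff_X]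
  split_ifs
  · exact one_mem _
  · exact zero_mem _

theorem u_mem_PolW : u ∈ PolW W w u := by
  classical
  refine ⟨X 1, fun m => ?_, by simp⟩
  rw [coeff_X]
  split_ifs
  · exact one_mem _
  · exact zero_mem _

/-- The polynomials over `W` are dense in `F`. -/
theorem exists_PolW_near [IsAlgClosed Ω] (hw : TL v W w 0) (hu : TL v (cadj v W w) u 0) {y : Ω}
    (hy : y ∈ cadj v (cadj v W w) u) (b : ℝ) : ∃ r ∈ PolW W w u, v.Ge b (y - r) := by
  obtain ⟨f, hf, h1⟩ := hu.dense hy b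
  -- approximate the coefficients
  have hc : ∀ i, ∃ g ∈ PI W, v.Ge (b - v (u ^ i)) (f.coeff i - g.eval w) := fun i =>
    hw.dense (hf i) _
  choose g hg h2 using hc
  refine ⟨∑ i ∈ f.support, (g i).eval w * u ^ i, sum_mem fun i _ =>
    mul_mem ?_ (pow_mem u_mem_PolW i), ?_⟩
  · rw [Polynomial.eval_eq_sum, Polynomial.sum]
    exact sum_mem fun j _ => mul_mem (le_PolW (hg i j)) (pow_mem w_mem_PolW j)
  · have e1 : y - ∑ i ∈ f.support, (g i).eval w * u ^ i =
        (y - f.eval u) + ∑ i ∈ f.support, (f.coeff i - (g i).eval w) * u ^ i := by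
      rw [Polynomial.eval_eq_sum, Polynomial.sum]
      simp_rw [sub_mul]
      rw [Finset.sum_sub_distrib]
      ring
    rw [e1]
    refine h1.add (RVal.Ge.sum _ _ fun i _ => ?_)
    exact ((h2 i).mul (RVal.ge_self (v := v) (u ^ i))).mono (by linarith)

theorem PolW_le : ∀ y ∈ PolW W w u, y ∈ cadj v (cadj v W w) u := by
  rintro y ⟨f, hf, rfl⟩
  rw [eval_eq']
  have hw' : w ∈ cadj v (cadj v W w) u := le_cadj v _ u (self_mem_cadj v W w)
  refine sum_mem fun m _ => mul_mem (le_cadj v _ u (le_cadj v W w (hf m))) (prod_mem fun i _ => ?_)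
  fin_cases i
  · exact pow_mem hw' _
  · exact pow_mem (self_mem_cadj v _ u) _

/-- The elements of `Rp` are values of polynomials with exponents divisible by `p`. -/
theorem exists_of_mem_Rp [hp : Fact p.Prime] [CharP Ω p] {y : Ω} (hy : y ∈ Rp p W (PolW W w u)) :
    ∃ f : MvPolynomial (Fin 2) Ω, (∀ g, coeff g f ∈ W) ∧ (∀ g, coeff g f ≠ 0 → ∀ i, p ∣ g i) ∧
      eval ![w, u] f = y := by
  classical
  have hC : ∀ y ∈ W, ∃ f : MvPolynomial (Fin 2) Ω, (∀ g, coeff g f ∈ W) ∧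
      (∀ g, coeff g f ≠ 0 → ∀ i, p ∣ g i) ∧ eval ![w, u] f = y := by
    intro y hy
    refine ⟨C y, fun m => ?_, fun m hm i => ?_, eval_C _⟩
    · rw [coeff_C]
      split_ifs
      · exact hy
      · exact zero_mem _
    · rw [coeff_C] at hm
      split_ifs at hm with h
      · rw [← h]
        exact dvd_zero p
      · exact absurd rfl hm
  induction hy using Algebra.adjoin_induction with
  | mem y hy =>
    rcases hy with hy | ⟨r, ⟨f, hf, rfl⟩, rfl⟩
    · exact hC y hy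
    · refine ⟨f ^ p, fun g => ?_, fun g hg i => ?_, map_pow _ _ _⟩
      · have h1 : f ^ p = ∑ m ∈ f.support, monomial (p • m) (coeff m f ^ p) := by
          have := pow_eq_sum p f 1
          simpa [pow_one] using this
        rw [h1, coeff_sum]
        refine sum_mem fun m _ => ?_
        rw [coeff_monomial]
        split_ifs
        · exact pow_mem (hf m) _
        · exact zero_mem _
      · have hg' : coeff g (f ^ p ^ 1) ≠ 0 := by rwa [pow_one]
        obtain ⟨m, rfl, -⟩ := exists_of_coeff_pow p f 1 hg'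
        rw [Finsupp.smul_apply, smul_eq_mul, pow_one]
        exact dvd_mul_right p _
  | algebraMap c => exact hC _ (W.algebraMap_mem c)
  | add x y _ _ hx hy =>
    obtain ⟨f, hf, hf', rfl⟩ := hx
    obtain ⟨g, hg, hg', rfl⟩ := hy
    refine ⟨f + g, fun m => ?_, fun m hm i => ?_, map_add _ _ _⟩
    · rw [coeff_add]
      exact add_mem (hf m) (hg m)
    · rw [coeff_add] at hm
      by_cases h1 : coeff m f = 0
      · rw [h1, zero_add] at hm
        exact hg' m hm i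
      · exact hf' m h1 i
  | mul x y _ _ hx hy =>
    obtain ⟨f, hf, hf', rfl⟩ := hx
    obtain ⟨g, hg, hg', rfl⟩ := hy
    refine ⟨f * g, fun m => ?_, fun m hm i => ?_, map_mul _ _ _⟩
    · rw [coeff_mul]
      exact sum_mem fun q _ => mul_mem (hf _) (hg _)
    · rw [coeff_mul] at hm
      obtain ⟨q, hq, h1⟩ := Finset.exists_ne_zero_of_sum_ne_zero hm
      rw [Finset.HasAntidiagonal.mem_antidiagonal] at hq
      rw [← hq, Finsupp.add_apply]
      exact dvd_add (hf' _ (left_ne_zero_of_mul h1) i) (hg' _ (right_ne_zero_of_mul h1) i)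

/-- **The normal form**, `e ≠ 0`: polynomials. -/
theorem nf_pol [IsAlgClosed Ω] [hp : Fact p.Prime] [CharP Ω p] (h0 : Ctx0 k v)
    (hk : ∀ a : k, ∃ b : k, b ^ p = a) {κ : ℕ → k} {t : ℕ} {e : k} (he : e ≠ 0)
    (hw : TL v W w 0) (hu : TL v (cadj v W w) u 0) {x z a a₀ : Ω} (hxW : x ∈ W)
    (hx : LP p v W 0 x) (ha₀ : a₀ ∈ cadj v (cadj v W w) u)
    (tie : ∀ ε : ℝ, 0 < ε → ∃ θ ∈ cadj v (cadj v W w) u, v.Ge (-ε) (z - θ) ∧
      ∃ h ∈ cadj v (cadj v W w) u,
        v.Ge (-ε) (algebraMap k Ω e * θ + x * PP p κ t θ + a₀ - h ^ p))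
    (rel : PG p v (cadj v (cadj v (cadj v W w) u) z) 0
      (a - (algebraMap k Ω e * z + x * PP p κ t z + a₀))) :
    ∃ φ ∈ cadj v (cadj v W w) u, ∃ Pa : MvPolynomial (Fin 2) Ω,
      (∀ g, coeff g Pa ∈ W) ∧ (∀ g, coeff g Pa ≠ 0 → ∀ i, p ∣ g i) ∧
      (∀ ε : ℝ, 0 < ε → ∃ Θ H : MvPolynomial (Fin 2) Ω, (∀ g, coeff g Θ ∈ W) ∧
        (∀ g, coeff g Θ ≠ 0 → ∀ i, p ∣ g i) ∧ (∀ g, coeff g H ∈ W) ∧
        v.Ge (-ε) (z - φ - eval ![w, u] Θ) ∧
        v.Ge (-ε) (algebraMap k Ω e * eval ![w, u] Θ + x * PP p κ t (eval ![w, u] Θ) +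
          eval ![w, u] Pa - (eval ![w, u] H) ^ p)) ∧
      PG p v (cadj v (cadj v (cadj v W w) u) z) 0
        (a - (algebraMap k Ω e * (z - φ) + x * PP p κ t (z - φ) + eval ![w, u] Pa)) := by
  have hee : algebraMap k Ω e * algebraMap k Ω e⁻¹ = 1 := by
    rw [← map_mul, mul_inv_cancel₀ he, map_one]
  obtain ⟨b, hb, hab⟩ := exists_PolW_near hw hu ha₀ 1
  have hbF := PolW_le (v := v) b hb
  have hb'R : algebraMap k Ω e⁻¹ * b ∈ PolW W w u := mul_mem (Subalgebra.algebraMap_mem _ _) hb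
  obtain ⟨q, hq, hq'⟩ := exists_PP_eq hk κ t hb'R
  have hPR : -(x * PP p κ t (algebraMap k Ω e⁻¹ * b)) ∈ Rp p W (PolW W w u) := by
    rw [hq']
    exact neg_mem (mul_mem (le_Rp hxW) (pow_mem_Rp hq))
  obtain ⟨Pa, hPa, hPa', hPa''⟩ := exists_of_mem_Rp hPR
  refine ⟨-(algebraMap k Ω e⁻¹ * b), neg_mem (mul_mem (algebraMap_mem _ _) hbF), Pa, hPa, hPa',
    fun ε hε => ?_, ?_⟩
  · obtain ⟨θ, hθ, h1, h, hh, h2⟩ := nf_tie (R := PolW W w u) (W := W) h0 hk he
      (fun y hy => le_PolW hy) hxW (fun ε hε => by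
        have := hx ε hε
        simpa using this) (fun f hf C => exists_PolW_near hw hu hf C) hb
      (hab.mono zero_le_one) tie ε hε
    obtain ⟨Θ, hΘ, hΘ', rfl⟩ := exists_of_mem_Rp hθ
    obtain ⟨H, hH, rfl⟩ := hh
    refine ⟨Θ, H, hΘ, hΘ', hH, ?_, ?_⟩
    · rwa [sub_neg_eq_add]
    · rw [hPa'', ← sub_eq_add_neg]
      exact h2
  · rw [hPa'']
    have e1 : a - (algebraMap k Ω e * (z - -(algebraMap k Ω e⁻¹ * b)) +
        x * PP p κ t (z - -(algebraMap k Ω e⁻¹ * b)) +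
        -(x * PP p κ t (algebraMap k Ω e⁻¹ * b))) =
        (a - (algebraMap k Ω e * z + x * PP p κ t z + a₀)) + (a₀ - b) := by
      rw [sub_neg_eq_add, PP_add]
      linear_combination (-b) * hee
    rw [e1]
    exact rel.add (PG.of_gt (Gt.of_ge hab one_pos))

end Pool.Agent.TWFN
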