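import Pool.Agent.Lib.TWCY.V0R

/-!
# CT, j = 1: critical elements with strict derivatives, no parallel class

`C` is the closure of `W(w)`, `F` the closure of `C(u)`, `w` and `u` of radius `0`; `W = W ^ p [x]`.
`dw`, `du` are derivations of `F` of norm `≤ 0`, `dw W = 0`, `dw w = 1`, `du C = 0`, `du u = 1`
(`dw u` is arbitrary).

* `exists_qx1`, `exists_qx2`: an element of `C` (of `F`) with strict derivatives is in `QX`, up to
  smaller elements;
* `v0b`: a critical element of `F` with strict derivatives is in the class of `x`.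
-/

set_option autoImplicit false
set_option linter.unusedSectionVars false

open Polynomial Finset

namespace Pool.Agent.TWFN

open Pool.Agent.H15JM (RVal)
open Pool.Agent.LU1 (VPos)
open Pool.Agent.D2 (Ctx0)
open Pool.Agent.TWM
open Pool.Agent.TWII (PG LP)
open Pool.Agent.TWRR (GP OC)
open Pool.Agent.TWCY (Drv QX)

universe u

variable {k Ω : Type u} [Field k] [Field Ω] [Algebra k Ω] {v : RVal Ω}
  {C W F E : IntermediateField k Ω} {p : ℕ} {w x y : Ω} {D dw du : Ω → Ω} {b ν : ℝ}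

section IsAlgClosed

variable [IsAlgClosed Ω]

/-- A derivation which kills `E`, with `D w` in `E⟨w⟩`, maps `E⟨w⟩` to itself. -/
theorem drv_mem_cadj (h : Drv v F D) (hE : E ≤ F) (h0 : ∀ a ∈ E, D a = 0) {r : ℝ}
    (hw : TL v E w r) (hwF : cadj v E w ≤ F) (h1 : D w ∈ cadj v E w) {a : Ω}
    (ha : a ∈ cadj v E w) : D a ∈ cadj v E w := by
  refine cld_cadj v E w fun b => ?_
  obtain ⟨f, hf, h2⟩ := hw.dense ha b
  refine ⟨(hasseDeriv 1 f).eval w * D w,
    mul_mem (TWLM.eval_mem_cadj (hasse_mem_PI hf 1)) h1, ?_⟩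
  have h3 := h.norm _ (sub_mem (hwF ha) (hwF (TWLM.eval_mem_cadj hf))) b h2
  rwa [h.map_sub (hwF ha) (hwF (TWLM.eval_mem_cadj hf)),
    h.map_poly hE h0 (hwF (self_mem_cadj v E w)) hf] at h3

/-- The jets at an element of radius `0`. -/
theorem ge_jet (hw : TL v C w 0) {f : Polynomial Ω} (hf : f ∈ PI C) (h : v.Ge b (f.eval w))
    (l : ℕ) : v.Ge b ((hasseDeriv l f).eval w) := by
  rcases eq_or_ne f 0 with h0 | h0
  · rw [h0, map_zero, eval_zero]
    exact RVal.Ge.zero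
  · have hf' := PI_mono (le_algc C) hf
    have h1 := hw.weak hf' h0 l
    rw [taylor_coeff, mul_zero, sub_zero] at h1
    exact h1.mono (h (hw.eval_ne hf' h0))

/-- The jets of index not divisible by `p` are bounded by the first one. -/
theorem ge_jet_one [hp : Fact p.Prime] [CharP Ω p] (hw : TL v C w 0) {f : Polynomial Ω}
    (hf : f ∈ PI C) (h : v.Ge b ((hasseDeriv 1 f).eval w)) {l : ℕ} (hl : ¬ p ∣ l) :
    v.Ge b ((hasseDeriv l f).eval w) := by
  obtain ⟨m, rfl⟩ : ∃ m, l = m + 1 := by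
    rcases l with _ | l
    · exact absurd (dvd_zero p) hl
    · exact ⟨l, rfl⟩
  have h1 := ge_jet hw (hasse_mem_PI hf 1) h m
  have h2 := congrArg (fun L => L f) (hasseDeriv_comp (R := Ω) m 1)
  simp only [LinearMap.comp_apply, LinearMap.smul_apply] at h2
  rw [h2, eval_smul, Nat.choose_symm_add, Nat.choose_one_right, nsmul_eq_mul] at h1
  have h3 := TWM.val_natCast (v := v) (Ω := Ω) p hl
  intro h4
  have h5 := h1 (mul_ne_zero h3.1 h4)
  rwa [v.map_mul h3.1 h4, h3.2, zero_add] at h5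

/-- **One variable**: an element of `W⟨w⟩` with a small derivative is in `QX`, up to smaller
elements. -/
theorem exists_qx1 [hp : Fact p.Prime] [CharP Ω p] (hw : TL v W w 0) (hgen : ∀ f ∈ W, QX p W x f)
    (hC : cadj v W w ≤ F) (hd : Drv v F dw) (hdW : ∀ a ∈ W, dw a = 0) (hdw : dw w = 1) {c : Ω}
    (hc : c ∈ cadj v W w) (h : Gt v ν (dw c)) : ∃ r : Ω, QX p F x r ∧ Gt v ν (c - r) := by
  classical
  have hWF : W ≤ F := (le_cadj v W w).trans hC
  obtain ⟨q, hq, h1⟩ := hw.dense hc (ν + 1)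
  have hqF : q.eval w ∈ F := hC (TWLM.eval_mem_cadj hq)
  have h2 := hd.norm _ (sub_mem (hC hc) hqF) _ h1
  rw [hd.map_sub (hC hc) hqF, hd.map_poly hWF hdW (hC (self_mem_cadj v W w)) hq, hdw,
    mul_one] at h2
  have h3 : Gt v ν ((hasseDeriv 1 q).eval w) := by
    have e : (hasseDeriv 1 q).eval w = dw c - (dw c - (hasseDeriv 1 q).eval w) := by ring
    rw [e]
    exact h.sub (Gt.of_ge h2 (by linarith))
  obtain ⟨μ, hμ, h4⟩ := TWLM.exists_ge_of_gt h3
  obtain ⟨δ, hδ, h5⟩ := TWCY.jets_p (p := p) (ν := ν) hw hq fun l hl => by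
    rw [mul_zero, sub_zero]
    exact Gt.of_ge (ge_jet_one hw hq h4 hl) (by linarith)
  obtain ⟨ψ, hψ, h6⟩ := hw.lim δ hδ
  have hlift : ∀ f ∈ W, QX p F x f := fun f hf => by
    obtain ⟨H, hH, h10⟩ := hgen f hf
    exact ⟨H, fun i => hWF (hH i), h10⟩
  refine ⟨_, ?_, by
    have h7 := (Gt.of_ge h1 (by linarith) : Gt v ν (c - q.eval w)).add (h5 ψ h6)
    have e : c - (∑ j ∈ range (q.natDegree + 1),
        if p ∣ j then (hasseDeriv j q).eval ψ * (w - ψ) ^ j else 0) = (c - q.eval w) +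
        (q.eval w - ∑ j ∈ range (q.natDegree + 1),
          if p ∣ j then (hasseDeriv j q).eval ψ * (w - ψ) ^ j else 0) := by ring
    rw [← e] at h7
    exact h7⟩
  refine QX.sum _ _ fun i _ => ?_
  split_ifs with hi
  · obtain ⟨i', rfl⟩ := hi
    rw [mul_comm p i', pow_mul]
    exact QX.mul_pow (hlift _ (eval_mem (hasse_mem_PI hq _) hψ))
      (pow_mem (sub_mem (hC (self_mem_cadj v W w)) (hWF hψ)) _)
  · exact QX.zero

/-- **Two variables**: an element of `F` with strict derivatives is in `QX`, up to smaller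
elements. -/
theorem exists_qx2 [hp : Fact p.Prime] [CharP Ω p] {u : Ω} (hw : TL v W w 0)
    (hu : TL v (cadj v W w) u 0) (hgen : ∀ f ∈ W, QX p W x f)
    (hF : F = cadj v (cadj v W w) u) (hdw : Drv v F dw) (hdu : Drv v F du)
    (hwW : ∀ a ∈ W, dw a = 0) (hww : dw w = 1) (huC : ∀ a ∈ cadj v W w, du a = 0)
    (huu : du u = 1) (hy : y ∈ F) (h1 : Gt v 0 (dw y)) (h2 : Gt v 0 (du y)) :
    ∃ y' : Ω, QX p F x y' ∧ Gt v 0 (y - y') := by
  classical
  have hCF : cadj v W w ≤ F := by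
    rw [hF]
    exact le_cadj v _ _
  have hWF : W ≤ F := (le_cadj v W w).trans hCF
  have huF : u ∈ F := by
    rw [hF]
    exact self_mem_cadj v _ _
  obtain ⟨f, hf, h3⟩ := hu.dense (by rwa [hF] at hy) 1
  have hfF : f.eval u ∈ F := by
    rw [hF]
    exact TWLM.eval_mem_cadj hf
  -- the first jet
  have h4 := hdu.norm _ (sub_mem hy hfF) _ h3
  rw [hdu.map_sub hy hfF, hdu.map_poly hCF huC huF hf, huu, mul_one] at h4
  have h5 : Gt v 0 ((hasseDeriv 1 f).eval u) := by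
    have e : (hasseDeriv 1 f).eval u = du y - (du y - (hasseDeriv 1 f).eval u) := by ring
    rw [e]
    exact h2.sub (Gt.of_ge h4 one_pos)
  obtain ⟨μ₁, hμ₁, h6⟩ := TWLM.exists_ge_of_gt h5
  obtain ⟨μ₂, hμ₂, h7⟩ := TWLM.exists_ge_of_gt h1
  rw [zero_add] at h6 h7
  obtain ⟨δ₁, hδ₁, h8⟩ := TWCY.jets_p (p := p) (ν := μ₁ / 2) hu hf fun l hl => by
    rw [mul_zero, sub_zero]
    exact Gt.of_ge (ge_jet_one hu hf h6 hl) (by linarith)
  -- the margin
  obtain ⟨μ, hμ⟩ : ∃ μ, μ = min (min (μ₁ / 2) μ₂) 1 := ⟨_, rfl⟩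
  have hμ0 : 0 < μ := hμ ▸ lt_min (lt_min (by linarith) hμ₂) one_pos
  have hμa : μ ≤ μ₁ / 2 := hμ ▸ (min_le_left _ _).trans (min_le_left _ _)
  have hμb : μ ≤ μ₂ := hμ ▸ (min_le_left _ _).trans (min_le_right _ _)
  have hμc : μ ≤ 1 := hμ ▸ min_le_right _ _
  obtain ⟨N, hN⟩ : ∃ N, N = f.natDegree := ⟨_, rfl⟩
  have hN0 : (0 : ℝ) < 4 * (N + 1) := by positivity
  obtain ⟨δ, hδ⟩ : ∃ δ, δ = min δ₁ (μ / (4 * (N + 1))) := ⟨_, rfl⟩
  have hδ0 : 0 < δ := hδ ▸ lt_min hδ₁ (div_pos hμ0 hN0)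
  have hδa : δ ≤ δ₁ := hδ ▸ min_le_left _ _
  have hδb : ∀ j : ℕ, j ≤ N → (j : ℝ) * δ ≤ μ / 4 := fun j hj => by
    have h9 : δ ≤ μ / (4 * (N + 1)) := hδ ▸ min_le_right _ _
    rw [le_div_iff₀ hN0] at h9
    have h10 : (j : ℝ) ≤ N := by exact_mod_cast hj
    nlinarith
  obtain ⟨ψ, hψ, h9⟩ := hu.lim δ hδ0
  have h10 := h8 ψ (h9.mono (by linarith))
  rw [← hN] at h10
  have hψF : ψ ∈ F := hCF hψ
  -- the coefficients
  have hcC : ∀ j, (hasseDeriv j f).eval ψ ∈ cadj v W w := fun j => eval_mem (hasse_mem_PI hf j) hψ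
  obtain ⟨c, hc⟩ : ∃ c : ℕ → Ω, ∀ j, c j = (hasseDeriv j f).eval ψ := ⟨_, fun _ => rfl⟩
  simp only [← hc] at h10 hcC
  have hupow : ∀ j, p ∣ j → ∃ g ∈ F, (u - ψ) ^ j = g ^ p := fun j hj => by
    obtain ⟨i, rfl⟩ := hj
    exact ⟨(u - ψ) ^ i, pow_mem (sub_mem huF hψF) _, by rw [mul_comm, pow_mul]⟩
  have hSF : ∀ j ∈ range (N + 1), (if p ∣ j then c j * (u - ψ) ^ j else 0) ∈ F := fun j _ => by
    split_ifs
    · exact mul_mem (hCF (hcC j)) (pow_mem (sub_mem huF hψF) _)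
    · exact zero_mem _
  have h11 : v.Ge μ (dw (∑ j ∈ range (N + 1), if p ∣ j then c j * (u - ψ) ^ j else 0)) := by
    have h12 := hdw.norm _ (sub_mem hy hfF) _ h3
    rw [hdw.map_sub hy hfF] at h12
    have h13 := hdw.norm _ (sub_mem hfF (sum_mem hSF)) _ h10.ge
    rw [hdw.map_sub hfF (sum_mem hSF)] at h13
    have e : dw (∑ j ∈ range (N + 1), if p ∣ j then c j * (u - ψ) ^ j else 0) =
        dw y - (dw y - dw (f.eval u)) - (dw (f.eval u) -
          dw (∑ j ∈ range (N + 1), if p ∣ j then c j * (u - ψ) ^ j else 0)) := by ring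
    rw [e]
    exact ((h7.mono hμb).sub (h12.mono hμc)).sub (h13.mono hμa)
  obtain ⟨g, hg⟩ : ∃ g : Polynomial Ω, g = ∑ j ∈ range (N + 1),
      if p ∣ j then Polynomial.C (dw (c j)) * (X - Polynomial.C ψ) ^ j else 0 := ⟨_, rfl⟩
  have hgu : dw (∑ j ∈ range (N + 1), if p ∣ j then c j * (u - ψ) ^ j else 0) = g.eval u := by
    rw [hdw.map_sum _ hSF, hg, eval_finsetSum]
    refine sum_congr rfl fun j _ => ?_
    split_ifs with hj
    · obtain ⟨t, ht, h12⟩ := hupow j hj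
      rw [h12, hdw.mul _ (hCF (hcC j)) _ (pow_mem ht p), hdw.map_pow_char ht, mul_zero, zero_add,
        eval_mul, eval_C, eval_pow, eval_sub, eval_X, eval_C, h12]
      ring
    · rw [eval_zero, hdw.map_zero]
  have hgC : g ∈ PI (cadj v W w) := by
    rw [hg]
    refine sum_mem fun j _ => ?_
    split_ifs
    · refine mul_mem (C_mem_PI (drv_mem_cadj hdw hWF hwW hw hCF ?_ (hcC j)))
        (pow_mem (sub_mem X_mem_PI (C_mem_PI hψ)) _)
      rw [hww]
      exact one_mem _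
    · exact zero_mem _
  have hgN : g.natDegree ≤ N := by
    rw [hg]
    refine natDegree_sum_le_of_forall_le _ _ fun j hj => ?_
    split_ifs
    · refine (natDegree_C_mul_le _ _).trans (natDegree_pow_le.trans ?_)
      rw [natDegree_X_sub_C, mul_one]
      exact Nat.lt_succ_iff.1 (mem_range.1 hj)
    · rw [natDegree_zero]
      exact Nat.zero_le _
  have hgm : ∀ m, p ∣ m → m ≤ N → (hasseDeriv m g).eval ψ = dw (c m) := fun m hm hmN => by
    rw [← taylor_coeff, hg, map_sum, finsetSum_coeff,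
      sum_eq_single_of_mem m (mem_range.2 (Nat.lt_succ_iff.2 hmN)), if_pos hm]
    · rw [taylor_mul, taylor_C, taylor_pow, map_sub, taylor_X, taylor_C, add_sub_cancel_right,
        coeff_C_mul, coeff_X_pow_self, mul_one]
    · intro j _ hj
      split_ifs
      · rw [taylor_mul, taylor_C, taylor_pow, map_sub, taylor_X, taylor_C, add_sub_cancel_right,
          coeff_C_mul, coeff_X_pow, if_neg hj.symm, mul_zero]
      · rw [map_zero, coeff_zero]
  rw [hgu] at h11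
  have h12 : ∀ m, p ∣ m → m ≤ N → v.Ge (3 * μ / 4) (dw (c m)) := fun m hm hmN => by
    rw [← hgm m hm hmN, TWN1.rt_taylor (D := N)
      ((natDegree_hasseDeriv_le g m).trans ((Nat.sub_le _ _).trans hgN)) u ψ]
    refine RVal.Ge.sum _ _ fun l hl => ?_
    have h13 := ge_jet hu (hasse_mem_PI hgC m) (ge_jet hu hgC h11 m) l
    have h14 : v.Ge (0 - δ) (ψ - u) := by
      have e : ψ - u = -(u - ψ) := by ring
      rw [e]
      exact h9.neg
    refine (h13.mul (ge_pow h14 l)).mono ?_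
    have := hδb l (Nat.lt_succ_iff.1 (mem_range.1 hl))
    linarith
  have h13 : ∀ j, ∃ r : Ω, QX p F x r ∧ (p ∣ j → j ≤ N → Gt v (μ / 2) (c j - r)) := fun j => by
    by_cases hj : p ∣ j ∧ j ≤ N
    · obtain ⟨r, hr, h14⟩ := exists_qx1 (ν := μ / 2) hw hgen hCF hdw hwW hww (hcC j)
        (Gt.of_ge (h12 j hj.1 hj.2) (by linarith))
      exact ⟨r, hr, fun _ _ => h14⟩
    · exact ⟨0, QX.zero, fun h14 h15 => absurd ⟨h14, h15⟩ hj⟩
  choose r hr h14 using h13
  refine ⟨∑ j ∈ range (N + 1), if p ∣ j then r j * (u - ψ) ^ j else 0,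
    QX.sum _ _ fun j _ => ?_, ?_⟩
  · split_ifs with hj
    · obtain ⟨t, ht, h15⟩ := hupow j hj
      rw [h15]
      exact (hr j).mul_pow ht
    · exact QX.zero
  · have e : y - (∑ j ∈ range (N + 1), if p ∣ j then r j * (u - ψ) ^ j else 0) =
        (y - f.eval u) + (f.eval u - ∑ j ∈ range (N + 1), if p ∣ j then c j * (u - ψ) ^ j else 0) +
        ∑ j ∈ range (N + 1), if p ∣ j then (c j - r j) * (u - ψ) ^ j else 0 := by
      have e1 : (∑ j ∈ range (N + 1), if p ∣ j then (c j - r j) * (u - ψ) ^ j else 0) =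
          (∑ j ∈ range (N + 1), if p ∣ j then c j * (u - ψ) ^ j else 0) -
          ∑ j ∈ range (N + 1), if p ∣ j then r j * (u - ψ) ^ j else 0 := by
        rw [← sum_sub_distrib]
        refine sum_congr rfl fun j _ => ?_
        split_ifs
        · ring
        · ring
      rw [e1]
      ring
    rw [e]
    refine ((Gt.of_ge h3 one_pos).add (h10.mono (by linarith))).add (Gt.sum _ _ fun j hj => ?_)
    split_ifs with hpj
    · have hjN := Nat.lt_succ_iff.1 (mem_range.1 hj)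
      refine ((h14 j hpj hjN).mul_ge (ge_pow h9 j)).mono ?_
      have := hδb j hjN
      linarith
    · exact Gt.zero

/-- **Row V0, no parallel class.** -/
theorem v0b [hp : Fact p.Prime] [CharP Ω p] {u : Ω} {dd : Fin 2 → Ω → Ω} (h0 : Ctx0 k v)
    (hw : TL v W w 0) (hu : TL v (cadj v W w) u 0) (hF : F = cadj v (cadj v W w) u)
    (hgp : GP p v W) (hx : x ∈ W) (hgen : ∀ f ∈ W, QX p W x f) (hlx : LP p v W 0 x)
    (hD : Drv v F D) (hDx : D x = 1) (hd : ∀ i, Drv v F (dd i)) (hwW : ∀ a ∈ W, dd 0 a = 0)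
    (hww : dd 0 w = 1) (huC : ∀ a ∈ cadj v W w, dd 1 a = 0) (huu : dd 1 u = 1) :
    ∀ y ∈ F, LP p v F 0 y → (∀ i, VPos v (dd i y)) →
      ∃ c : k, PG p v F 0 (y - algebraMap k Ω c * x) := by
  intro y hy hl hs
  have hCF : cadj v W w ≤ F := by
    rw [hF]
    exact le_cadj v _ _
  have hWF : W ≤ F := (le_cadj v W w).trans hCF
  have hxF : x ∈ F := hWF hx
  have himm : Imm v W F := by
    have h1 : Imm v W (cadj v W w) := hw.imm
    have h2 : Imm v (cadj v W w) F := by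
      rw [hF]
      exact hu.imm
    refine ⟨hWF, fun b hb hb0 => ?_⟩
    obtain ⟨a, ha, h3⟩ := h2.imm b hb hb0
    obtain ⟨ha0, hv⟩ := h3.val_eq hb0
    obtain ⟨a', ha', h4⟩ := h1.imm a ha ha0
    refine ⟨a', ha', ?_⟩
    have e : b - a' = (b - a) + (a - a') := by ring
    rw [e]
    rw [hv] at h4
    exact h3.add h4
  have hlx' : LP p v F 0 x := TWN1.LP.of_le' hWF hlx
  obtain ⟨y', hy', h1⟩ := exists_qx2 hw hu hgen hF (hd 0) (hd 1) hwW hww huC huu hy (hs 0) (hs 1)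
  have h2 : PG p v F 0 (y - y') := PG.of_gt h1
  have h3 : LP p v F 0 y' := by
    have h4 := hl.sub (TWII.LP.of_pg h2)
    rwa [sub_sub_cancel] at h4
  obtain ⟨h, hh, h4⟩ := TWCY.oc_of_qx hxF hlx' (fun b hb hb0 => TWCY.imm_root himm hgp hb hb0) hWF
    (hD.nmX hxF hDx) hy' h3
  have h5 : PG p v F 0 (y - h ^ p * x) := by
    have e : y - h ^ p * x = (y - y') + (y' - h ^ p * x) := by ring
    rw [e]
    exact h2.add h4
  have hhF : h ∈ F := hWF hh
  -- `h` is integral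
  have h6 : LP p v F 0 (h ^ p * x) := by
    have h7 := hl.sub (TWII.LP.of_pg h5)
    rwa [sub_sub_cancel] at h7
  have h7 : v.Ge 0 (h ^ p) := by
    have h8 := hD.ge_of_lp (mul_mem (pow_mem hhF p) hxF) h6
    rwa [hD.mul _ (pow_mem hhF p) _ hxF, hD.map_pow_char hhF, mul_zero, add_zero, hDx,
      mul_one] at h8
  have h8 : v.Ge 0 h := by
    intro h9
    have h10 := h7 (pow_ne_zero p h9)
    rw [v.map_pow h9] at h10
    have hp0 : (0 : ℝ) < p := by exact_mod_cast hp.out.pos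
    exact nonneg_of_mul_nonneg_right h10 hp0
  obtain ⟨c, hc⟩ := h0.residue h8
  refine ⟨c ^ p, ?_⟩
  obtain ⟨δ, hδ, h9⟩ := TWLM.exists_ge_of_gt hc
  rw [zero_add] at h9
  have h10 : PG p v F 0 ((1 * (h - algebraMap k Ω c)) ^ p * x) :=
    TWRR.lp_small hδ (sub_mem hhF (F.algebraMap_mem c)) h9 (by rw [one_pow, one_mul]; exact hlx')
  have e : y - algebraMap k Ω (c ^ p) * x = (y - h ^ p * x) +
      (1 * (h - algebraMap k Ω c)) ^ p * x := by
    rw [one_mul, sub_pow_char, map_pow]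
    ring
  rw [e]
  exact h5.add h10

end IsAlgClosed

end Pool.Agent.TWFN
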